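import Pool.Agent.N971.PG.C1E

/-!
# P17G: C1AGE and C1BGE
-/

set_option autoImplicit false

namespace Pool.Agent.N971.PG

open Finset
open Pool.Agent.N969.P15 (un psp psp2 Ev c2 chE)
open Pool.Agent.N972.P17 (Cp Cm Cme Cpe)
open Pool.Agent.N969.P17G
open Pool.Agent.N816.P17.CA (FF Om Cd fw facts Fc bijOn FF_fin)
open Pool.Agent.N973.P15.C (inj_gen exists_fac sign_of fo jac_odd chE_odd)
open Pool.Agent.N402.P15 (gen_C1B)
open Pool.Agent.N975.ChE (c2_mul c2_pm c2_even)

noncomputable section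

/-! ### `A` even, `m` odd -/

theorem even_odd {A m : ℕ} (hC : CpE A) (hM : Cm m) (hcop : Nat.Coprime A m) :
    (∑ u ∈ un m, chM m u * FgE A u m = 2 * WTgE A m (A * m)) ∧
    ∑ u ∈ un m, chM m u * (FgE A (2 * u) m + FgE A u (2 * m) + FgE A (u + m) (2 * m)) =
      2 * WTgE A m (2 * (A * m)) := by
  have hA := Ae_of hC
  obtain ⟨hms, hm4, hm17⟩ := hM
  have hA0 : 0 < A := by unfold Ae at hA; omega
  have hm0' : 0 < m := by omega
  have hm0 : (0 : ℤ) < m := by exact_mod_cast hm0'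
  have h17 : ¬ (17 : ℤ) ∣ A := by
    obtain ⟨M, rfl, -, -, hj⟩ := hC
    have h1 := not_dvd_of_Cp hj
    intro h2
    push_cast at h2
    exact h1 ((Int.Prime.dvd_mul' (by norm_num : Nat.Prime 17) h2).resolve_left (by norm_num))
  have c2m : Nat.Coprime 2 m := Nat.coprime_two_left.2 (Nat.odd_iff.2 (by omega))
  have hχ : ∀ u : ℤ, chM m ((m : ℤ) - u) = -chM m u := fun u => by
    rw [chM_odd hms hm4, chM_odd hms hm4, jac_odd hm4]
  have O1 := odd_sumE hA (d := A) (e := 1) (by ring) (by omega : 1 < m) hχ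
  have O2 := odd_sumE hA (d := 2 * A) (e := 2) (by ring) (by omega : 1 < m) hχ
  have D1 := sum_dataE hA (dvd_refl A) hA0 hms hm4 hcop hcop
  have D2 := sum_dataE (d := 2 * A) hA (Dvd.intro_left 2 rfl) (by omega) hms hm4 hcop
    (c2m.mul_left hcop)
  constructor
  · have e1 : ∑ u ∈ un m, chM m u * FgE A u m = ∑ u ∈ un m, chM m u * GQ A A u m -
        ∑ u ∈ un m, chM m u * GQ A A (-(u : ℤ)) m := by
      rw [← Finset.sum_sub_distrib]
      refine Finset.sum_congr rfl fun u _ => ?_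
      rw [FgE_eq hA0 h17 _ _ hm0]
      ring
    rw [e1, O1, D1]
    ring
  · have key : ∀ u : ℕ, FgE A (2 * u) m + FgE A u (2 * m) + FgE A (u + m) (2 * m) =
        GQ (2 * A) A u m - GQ (2 * A) A (-(u : ℤ)) m := by
      intro u
      rw [FgE_eq hA0 h17 _ _ hm0, FgE_eq hA0 h17 _ _ (by omega : (0 : ℤ) < 2 * m),
        FgE_eq hA0 h17 _ _ (by omega : (0 : ℤ) < 2 * m), ← GQ_two hA u hm0',
        ← GQ_two hA (-(u : ℤ)) hm0']
      have e1 : -(2 * (u : ℤ)) = 2 * -(u : ℤ) := by ring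
      have e2 : GQ A A (-((u : ℤ) + m)) (2 * m) = GQ A A (-(u : ℤ) + m) (2 * m) := by
        have h := GQ_shift hA (d := A) (e := 1) (by ring) (-((u : ℤ) + m)) (2 * m) 1
        have e3 : -((u : ℤ) + m) + 2 * m * 1 = -(u : ℤ) + m := by ring
        rw [e3] at h
        exact h.symm
      rw [e1, e2]
      ring
    have e1 : ∑ u ∈ un m, chM m u * (FgE A (2 * u) m + FgE A u (2 * m) + FgE A (u + m) (2 * m)) =
        ∑ u ∈ un m, chM m u * GQ (2 * A) A u m - ∑ u ∈ un m, chM m u * GQ (2 * A) A (-(u : ℤ)) m := by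
      rw [← Finset.sum_sub_distrib]
      refine Finset.sum_congr rfl fun u _ => ?_
      rw [key]
      ring
    have e5 : ((2 * A : ℕ) : ℤ) = 2 * A := by push_cast; ring
    rw [e5] at D2
    rw [e1, O2, D2, mul_assoc]
    ring

/-! ### `A` odd, `m` even -/

theorem gnE_odd {A : ℕ} (h : ¬ 2 ∣ A) (q : ℤ × ℤ × ℤ) : gnE A q = gn A q := by
  unfold gnE gn
  rw [if_neg h, one_mul, Finset.erase_eq_of_notMem (fun k => h (Nat.dvd_of_mem_primeFactors k))]

theorem FgE_odd {A : ℕ} (h : ¬ 2 ∣ A) (x M : ℤ) : FgE A x M = Fg A x M := by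
  unfold FgE Fg
  refine finsum_congr fun q => ?_
  rw [gnE_odd h]

theorem c2_odd {A m : ℕ} (hA : A % 4 = 1) (hm : Ev m) (u : ℤ) : c2 (A * m) u = c2 m u := by
  obtain ⟨m', rfl, -, hm'⟩ := hm
  obtain ⟨t, rfl⟩ : ∃ t, A = 4 * t + 1 := ⟨A / 4, by omega⟩
  unfold c2
  rcases hm' with h | h
  · have e : (4 * t + 1) * (4 * m') = 16 * (t * m') + 4 * m' := by ring
    rw [e]
    generalize t * m' = z
    have h1 : (16 * z + 4 * m') % 16 = 4 := by omega
    have h2 : 4 * m' % 16 = 4 := by omega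
    rw [if_pos h1, if_pos h2]
  · obtain ⟨l, rfl⟩ : ∃ l, m' = 2 * l := ⟨m' / 2, by omega⟩
    have e : (4 * t + 1) * (4 * (2 * l)) = 32 * (t * l) + 8 * l := by ring
    have e' : 4 * (2 * l) = 8 * l := by ring
    rw [e, e']
    generalize t * l = z
    have h1' : (32 * z + 8 * l) % 16 = 8 * l % 16 := by omega
    have h2 : (32 * z + 8 * l) % 32 = 8 * l % 32 := by omega
    rw [h1', h2]

theorem chM_even {m : ℕ} (hm : Ev m) (u : ℤ) : chM m u = chE m u := by
  have h2 : 2 ∣ m := by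
    obtain ⟨m', rfl, -, -⟩ := hm
    omega
  unfold chM chE
  rw [if_pos h2]

/-- the sum over the data with the right kernel symbols, `m` even -/
theorem sum_data_odd {A m d : ℕ} (hA4 : A % 4 = 1) (hAd : A ∣ d) (hd : 0 < d) (hm : Ev m)
    (hcop : Nat.Coprime A m) (hdm : ∀ p ∈ m.primeFactors.erase 2, ¬ p ∣ d) :
    ∑ u ∈ un m, chM m u * GP d A u m = WTgE A m (d * m) := by
  obtain ⟨m', hm', hms, hm4⟩ := id hm
  have hm0' : 0 < m' := Nat.pos_of_ne_zero hms.ne_zero
  have hm0 : 0 < m := by omega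
  have h2m : 2 ∈ m.primeFactors := Nat.mem_primeFactors.2 ⟨Nat.prime_two, by omega, hm0.ne'⟩
  have h2A : 2 ∉ A.primeFactors := fun h => by
    have := Nat.dvd_of_mem_primeFactors h
    omega
  have h1 : ∀ u ∈ un m, chM m u * GP d A u m =
      ∑ w ∈ Om (d * m), (if Cd m (d * m) u w then PL A (d * m) w * chE m u else 0) := by
    intro u _
    rw [GP_data hAd hd hm0 hcop, Finset.mul_sum, Finset.sum_filter, chM_even hm]
    refine Finset.sum_congr rfl fun w _ => ?_
    split_ifs <;> ring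
  rw [Finset.sum_congr rfl h1, Finset.sum_comm]
  have h2 : ∀ w ∈ Om (d * m), ∑ u ∈ un m,
      (if Cd m (d * m) u w then PL A (d * m) w * chE m u else 0) =
      (∏ p ∈ A.primeFactors, (if p = 2 then
        psl2 (A * m) w.2.1 w.2.2 ((d * m - w.1) / w.2.1) (w.1 / w.2.2)
        else psl p w.2.1 w.2.2 ((d * m - w.1) / w.2.1) (w.1 / w.2.2))) *
      ∏ p ∈ m.primeFactors, (if p = 2 then
        psp2 (A * m) w.2.1 w.2.2 ((d * m - w.1) / w.2.1) (w.1 / w.2.2)
        else psp p w.2.1 w.2.2 ((d * m - w.1) / w.2.1) (w.1 / w.2.2)) := by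
    rintro ⟨T, a, a'⟩ hw
    have hw' := hw
    unfold Om at hw'
    simp only [Finset.mem_sigma, Finset.mem_filter, Finset.mem_range, Finset.mem_product,
      Nat.mem_divisors] at hw'
    obtain ⟨⟨hT, hT5⟩, ⟨h3, h4⟩, ⟨h5, h6⟩, h7⟩ := hw'
    have hdet : a * ((d * m - T) / a) + a' * (T / a') = d * m := by
      rw [Nat.mul_div_cancel' h3, Nat.mul_div_cancel' h5]
      omega
    have key := gen_C1BE hm (N := d * m) (Dvd.intro_left d rfl) (by
      intro p hp h
      have hp' := hp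
      rw [Finset.mem_erase] at hp'
      have hpp := Nat.prime_of_mem_primeFactors hp'.2
      have hpm : p ∣ m := Nat.dvd_of_mem_primeFactors hp'.2
      have hc : Nat.Coprime (p ^ 2) d :=
        Nat.Coprime.pow_left 2 ((Nat.Prime.coprime_iff_not_dvd hpp).2 (hdm p hp))
      have h8 := hc.dvd_of_dvd_mul_left h
      have h9 : Nat.Coprime (p ^ 2) 4 := by
        have h10 : Nat.Coprime p 2 := (Nat.coprime_primes hpp Nat.prime_two).2 hp'.1
        have h11 := Nat.Coprime.pow 2 2 h10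
        exact h11
      rw [hm'] at h8
      have h12 := h9.dvd_of_dvd_mul_left h8
      rw [pow_two] at h12
      exact hpp.one_lt.ne' (Nat.isUnit_iff.1 (hms p h12))) a a' (T / a') ((d * m - T) / a) hdet
    simp only
    have e8 : ∏ p ∈ A.primeFactors, (if p = 2 then
        psl2 (A * m) a a' ((d * m - T) / a) (T / a')
        else psl p a a' ((d * m - T) / a) (T / a')) = PL A (d * m) ⟨T, (a, a')⟩ := by
      unfold PL
      refine Finset.prod_congr rfl fun p hp => ?_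
      have hp2 : p ≠ 2 := by
        rintro rfl
        exact h2A hp
      rw [if_neg hp2]
    have e9 : ∏ p ∈ m.primeFactors, (if p = 2 then
        psp2 (A * m) a a' ((d * m - T) / a) (T / a')
        else psp p a a' ((d * m - T) / a) (T / a')) =
        psp2 m a a' ((d * m - T) / a) (T / a') *
        ∏ p ∈ m.primeFactors.erase 2, psp p a a' ((d * m - T) / a) (T / a') := by
      rw [← Finset.mul_prod_erase _ _ h2m, if_pos rfl]
      congr 1
      · unfold psp2
        rw [c2_odd hA4 hm, c2_odd hA4 hm]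
      · refine Finset.prod_congr rfl fun p hp => ?_
        rw [Finset.mem_erase] at hp
        rw [if_neg hp.1]
    rw [e8, e9, ← key, Finset.sum_filter, Finset.mul_sum]
    refine Finset.sum_congr rfl fun u _ => ?_
    by_cases hC : Cd m (d * m) u ⟨T, (a, a')⟩
    · rw [if_pos hC]
      congr 1
      exact (if_pos hC).symm
    · rw [if_neg hC]
      have h0 : (if (m : ℤ) ∣ (a : ℤ) * (u : ℤ) + ((T / a' : ℕ) : ℤ) ∧
          (m : ℤ) ∣ (a' : ℤ) * (u : ℤ) - (((d * m - T) / a : ℕ) : ℤ) then chE m u else 0) = 0 :=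
        if_neg hC
      rw [h0, mul_zero]
  rw [Finset.sum_congr rfl h2]
  unfold WTgE WgE Om
  rw [Finset.sum_sigma]
  refine Finset.sum_congr rfl fun T _ => ?_
  rw [Finset.sum_product]

/-- the odd character and the reflection, odd `A` -/
theorem odd_sumO {A m d : ℕ} (hA : A ∣ d) (hd : 0 < d) (hm : 1 < m) (hcop : Nat.Coprime A m)
    {χ : ℤ → ℤ} (hχ : ∀ u : ℤ, χ ((m : ℤ) - u) = -χ u) :
    ∑ u ∈ un m, χ u * GP d A (-(u : ℤ)) m = -∑ u ∈ un m, χ u * GP d A u m := by
  have h1 := un_refl hm (fun u => χ u * GP d A (-u) m)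
  rw [← h1, ← Finset.sum_neg_distrib]
  refine Finset.sum_congr rfl fun u _ => ?_
  rw [hχ]
  have e : -((m : ℤ) - u) = (u : ℤ) + m * (-1) := by ring
  rw [e, GP_shift hA hd (by omega) hcop]
  ring

theorem odd_even {A m : ℕ} (hC : Cp A) (hM : Cme m) (hcop : Nat.Coprime A m) :
    (∑ u ∈ un m, chM m u * FgE A u m = 2 * WTgE A m (A * m)) ∧
    ∑ u ∈ un m, chM m u * (FgE A (2 * u) m + FgE A u (2 * m) + FgE A (u + m) (2 * m)) =
      2 * WTgE A m (2 * (A * m)) := by
  obtain ⟨hAs, hA4, hA17⟩ := hC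
  obtain ⟨hE, hm17⟩ := hM
  obtain ⟨m', hm', hms, hm4⟩ := id hE
  have hA0 : 0 < A := by omega
  have hm0' : 0 < m := by omega
  have hm0 : (0 : ℤ) < m := by exact_mod_cast hm0'
  have h17 := not_dvd_of_Cp hA17
  have h2A : ¬ 2 ∣ A := by omega
  have c2A : Nat.Coprime A 2 := Nat.coprime_two_right.2 (Nat.odd_iff.2 (by omega))
  have cA2m : Nat.Coprime A (2 * m) := c2A.mul_right hcop
  have hχ : ∀ u : ℤ, chM m ((m : ℤ) - u) = -chM m u := fun u => by
    rw [chM_even hE, chM_even hE, chE_odd hE]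
  have O1 := odd_sumO (dvd_refl A) hA0 (by omega : 1 < m) hcop hχ
  have O2 := odd_sumO (d := 2 * A) (Dvd.intro_left 2 rfl) (by omega) (by omega : 1 < m) hcop hχ
  have hpA : ∀ p ∈ m.primeFactors.erase 2, ¬ p ∣ A := by
    intro p hp h
    rw [Finset.mem_erase] at hp
    have hpp := Nat.prime_of_mem_primeFactors hp.2
    have h3 := Nat.dvd_gcd h (Nat.dvd_of_mem_primeFactors hp.2)
    rw [hcop] at h3
    exact hpp.one_lt.ne' (Nat.dvd_one.1 h3)
  have hpA2 : ∀ p ∈ m.primeFactors.erase 2, ¬ p ∣ 2 * A := by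
    intro p hp h
    have hp' := hp
    rw [Finset.mem_erase] at hp'
    have hpp := Nat.prime_of_mem_primeFactors hp'.2
    rcases (Nat.Prime.dvd_mul hpp).1 h with h3 | h3
    · exact hp'.1 ((Nat.prime_dvd_prime_iff_eq hpp Nat.prime_two).1 h3)
    · exact hpA p hp h3
  have D1 := sum_data_odd hA4 (dvd_refl A) hA0 hE hcop hpA
  have D2 := sum_data_odd (d := 2 * A) hA4 (Dvd.intro_left 2 rfl) (by omega) hE hcop hpA2
  constructor
  · have e1 : ∑ u ∈ un m, chM m u * FgE A u m = ∑ u ∈ un m, chM m u * GP A A u m -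
        ∑ u ∈ un m, chM m u * GP A A (-(u : ℤ)) m := by
      rw [← Finset.sum_sub_distrib]
      refine Finset.sum_congr rfl fun u _ => ?_
      rw [FgE_odd h2A, Fg_eq hA0 h17 _ _ hm0]
      ring
    rw [e1, O1, D1]
    ring
  · have key : ∀ u : ℕ, FgE A (2 * u) m + FgE A u (2 * m) + FgE A (u + m) (2 * m) =
        GP (2 * A) A u m - GP (2 * A) A (-(u : ℤ)) m := by
      intro u
      rw [FgE_odd h2A, FgE_odd h2A, FgE_odd h2A, Fg_eq hA0 h17 _ _ hm0,
        Fg_eq hA0 h17 _ _ (by omega : (0 : ℤ) < 2 * m),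
        Fg_eq hA0 h17 _ _ (by omega : (0 : ℤ) < 2 * m), ← GP_two (by omega) hA0 u hm0',
        ← GP_two (by omega) hA0 (-(u : ℤ)) hm0']
      have e1 : -(2 * (u : ℤ)) = 2 * -(u : ℤ) := by ring
      have e2 : GP A A (-((u : ℤ) + m)) (2 * m) = GP A A (-(u : ℤ) + m) (2 * m) := by
        have h := GP_shift (dvd_refl A) hA0 (n := 2 * m) (by omega) cA2m (-((u : ℤ) + m)) 1
        have e3 : -((u : ℤ) + m) + ((2 * m : ℕ) : ℤ) * 1 = -(u : ℤ) + m := by push_cast; ring
        have e4 : ((2 * m : ℕ) : ℤ) = 2 * m := by push_cast; ring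
        rw [e3, e4] at h
        exact h.symm
      rw [e1, e2]
      ring
    have e1 : ∑ u ∈ un m, chM m u * (FgE A (2 * u) m + FgE A u (2 * m) + FgE A (u + m) (2 * m)) =
        ∑ u ∈ un m, chM m u * GP (2 * A) A u m -
        ∑ u ∈ un m, chM m u * GP (2 * A) A (-(u : ℤ)) m := by
      rw [← Finset.sum_sub_distrib]
      refine Finset.sum_congr rfl fun u _ => ?_
      rw [key]
      ring
    have e5 : ((2 * A : ℕ) : ℤ) = 2 * A := by push_cast; ring
    rw [e5] at D2 O2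
    rw [e1, O2, D2, mul_assoc]
    ring

/-- **C1AGE** -/
theorem t_C1AGE : S_C1AGE := by
  rintro A m ⟨h | h, hcop⟩ -
  · exact (even_odd h.1 h.2 hcop).1
  · exact (odd_even h.1 h.2 hcop).1

/-- **C1BGE** -/
theorem t_C1BGE : S_C1BGE := by
  rintro A m ⟨h | h, hcop⟩ -
  · exact (even_odd h.1 h.2 hcop).2
  · exact (odd_even h.1 h.2 hcop).2

end

end Pool.Agent.N971.PG
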