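import Pool.Agent.N969.P17G.Defs
import Pool.Agent.N816.P17.C1A
import Pool.Agent.N402.P15.C1B

/-!
# P17G: forms of discriminant `A²` with a genus character and the cusps as factorizations
-/

set_option autoImplicit false

namespace Pool.Agent.N971.PG

open Finset
open Pool.Agent.N969.P15 (un psp)
open Pool.Agent.N972.P17 (Cp Cm)
open Pool.Agent.N969.P17G
open Pool.Agent.N816.P17.CA (FF Om Cd fw facts Fc bijOn FF_fin)
open Pool.Agent.N973.P15.C (inj_gen exists_fac sign_of fo jac_odd)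
open Pool.Agent.N402.P15 (gen_C1B)

noncomputable section

/-! ### the forms -/

/-- the forms of discriminant `A²` of the counting function -/
def SA (A : ℕ) (x M : ℤ) : Set (ℤ × ℤ × ℤ) :=
  {q | FmA A q ∧ 0 < q.1 ∧ q.1 * x ^ 2 + q.2.1 * x * M + q.2.2 * M ^ 2 < 0}

/-- the forms of orientation `+` -/
def SP (A : ℕ) (x M : ℤ) : Set (ℤ × ℤ × ℤ) := {q | q ∈ SA A x M ∧ (17 : ℤ) ∣ q.2.1 - A}

/-- the forms of orientation `-` -/
def SM (A : ℕ) (x M : ℤ) : Set (ℤ × ℤ × ℤ) := {q | q ∈ SA A x M ∧ (17 : ℤ) ∣ q.2.1 + A}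

theorem SA_fin (A : ℕ) (x M : ℤ) (hM : 0 < M) : (SA A x M).Finite := by
  have h1 : ((Set.Icc (0:ℤ) ((A : ℤ) ^ 2 * M^2)) ×ˢ
      (Set.Icc (-((A : ℤ) ^ 2 * M^2)) ((A : ℤ) ^ 2 * M ^ 2))).Finite :=
    (Set.finite_Icc _ _).prod (Set.finite_Icc _ _)
  refine Set.Finite.of_injOn (f := fun q : ℤ×ℤ×ℤ => (q.1, 2 * q.1 * x + q.2.1 * M)) ?_ ?_ h1
  · rintro ⟨a, B, C⟩ ⟨⟨hd, _⟩, hA, hN⟩
    simp only at hd hA hN
    have key : (2*a*x+B*M)^2 = 4*(a*(a*x^2+B*x*M+C*M^2)) + (A : ℤ) ^ 2*M^2 := by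
      linear_combination M^2 * hd
    have h2 : a * (a*x^2+B*x*M+C*M^2) ≤ -a := by nlinarith
    have h3 : 0 ≤ (2*a*x+B*M)^2 := sq_nonneg _
    have h4 : (2*a*x+B*M)^2 ≤ (A : ℤ) ^ 2*M^2 := by linarith
    have h5 : |2*a*x+B*M| ≤ (2*a*x+B*M)^2 := by
      rw [← sq_abs]
      have := abs_nonneg (2*a*x+B*M)
      nlinarith [Int.le_self_sq (|2*a*x+B*M|)]
    have h6 := abs_le.1 (h5.trans h4)
    simp only [Set.mem_prod, Set.mem_Icc]
    refine ⟨⟨hA.le, by linarith⟩, h6.1, h6.2⟩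
  · rintro ⟨a, B, C⟩ ⟨⟨hd, _⟩, hA, hN⟩ ⟨A', B', C'⟩ ⟨⟨hd', _⟩, hA', hN'⟩ h
    simp only [Prod.mk.injEq] at h hd hd' hA hA'
    obtain ⟨rfl, h2⟩ := h
    have h3 : B * M = B' * M := by linarith
    have h4 : B = B' := mul_right_cancel₀ hM.ne' h3
    subst h4
    have h5 : a * C = a * C' := by linarith
    have h6 : C = C' := mul_left_cancel₀ hA.ne' h5
    rw [h6]

theorem not_dvd_of_Cp {A : ℕ} (h : jacobiSym A 17 = 1) : ¬ (17 : ℤ) ∣ A := by
  intro h1
  have h2 : 17 ∣ A := by exact_mod_cast h1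
  have h3 : jacobiSym A 17 = 0 := by
    rw [jacobiSym.eq_zero_iff_not_coprime, Int.gcd_natCast_natCast]
    intro h4
    have h5 := Nat.dvd_gcd h2 (dvd_refl 17)
    rw [h4] at h5
    norm_num at h5
  rw [h3] at h
  norm_num at h

theorem SA_split {A : ℕ} (x M : ℤ) : SA A x M = SP A x M ∪ SM A x M := by
  ext q
  constructor
  · intro h
    have h1 : (17 : ℤ) ∣ (q.2.1 - A) * (q.2.1 + A) := by
      obtain ⟨k, hk⟩ := h.1.2
      refine ⟨4 * (k * q.2.2), ?_⟩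
      have h2 := h.1.1
      rw [hk] at h2
      linear_combination h2
    rcases Int.Prime.dvd_mul' (by norm_num : Nat.Prime 17) h1 with h3 | h3
    · exact Or.inl ⟨h, h3⟩
    · exact Or.inr ⟨h, h3⟩
  · rintro (h | h) <;> exact h.1

theorem disj {A : ℕ} (hA : ¬ (17 : ℤ) ∣ A) (x M : ℤ) : Disjoint (SP A x M) (SM A x M) := by
  rw [Set.disjoint_left]
  rintro q ⟨-, h1⟩ ⟨-, h2⟩
  apply hA
  have h3 := dvd_sub h2 h1
  have e : q.2.1 + (A : ℤ) - (q.2.1 - A) = 2 * A := by ring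
  rw [e] at h3
  exact (Int.Prime.dvd_mul' (by norm_num : Nat.Prime 17) h3).resolve_left (by norm_num)

/-- the weighted count of the factorizations -/
def GP (d : ℤ) (A : ℕ) (x n : ℤ) : ℤ := ∑ᶠ t ∈ FF d x n, gn A (fo t)

theorem jac_zero_of_dvd {p : ℕ} (hp : p.Prime) {x : ℤ} (h : (p : ℤ) ∣ x) : jacobiSym x p = 0 := by
  haveI : NeZero p := ⟨hp.ne_zero⟩
  rw [jacobiSym.eq_zero_iff_not_coprime]
  intro h3
  have h4 : (p : ℤ) ∣ ((Int.gcd x p : ℕ) : ℤ) := Int.dvd_coe_gcd h (dvd_refl _)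
  rw [h3] at h4
  exact hp.one_lt.ne' (Nat.dvd_one.1 (by exact_mod_cast h4))

theorem gen_dvd {p : ℕ} (hp : p.Prime) {q : ℤ × ℤ × ℤ} (h1 : (p : ℤ) ∣ q.1) (h2 : (p : ℤ) ∣ q.2.2) :
    gen p q = 0 := by
  unfold gen
  rw [if_pos h1]
  exact jac_zero_of_dvd hp h2

/-- primitive factorizations -/
theorem cop_of_gn {A : ℕ} {a a' c c' : ℤ} (hd : a * c' - a' * c = A) (h : gn A (fo (a, a', c, c')) ≠ 0)
    (hA : A ≠ 0) : IsCoprime a c := by
  rw [Int.isCoprime_iff_gcd_eq_one]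
  by_contra hg
  obtain ⟨p, hp, hpg⟩ := Nat.exists_prime_and_dvd hg
  have h1 : (p : ℤ) ∣ a := (by exact_mod_cast hpg : (p : ℤ) ∣ (Int.gcd a c : ℤ)).trans
    (Int.gcd_dvd_left ..)
  have h2 : (p : ℤ) ∣ c := (by exact_mod_cast hpg : (p : ℤ) ∣ (Int.gcd a c : ℤ)).trans
    (Int.gcd_dvd_right ..)
  have h3 : (p : ℤ) ∣ (A : ℤ) := by
    rw [← hd]
    exact dvd_sub (h1.mul_right _) (h2.mul_left _)
  have h4 : p ∈ A.primeFactors := Nat.mem_primeFactors.2 ⟨hp, by exact_mod_cast h3, hA⟩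
  apply h
  unfold gn
  refine Finset.prod_eq_zero h4 (gen_dvd hp ?_ ?_)
  · exact h1.mul_right _
  · exact h2.mul_right _

/-- the forms of orientation `+` and the factorizations -/
theorem bijP {A : ℕ} (hA0 : 0 < A) (hA17 : ¬ (17 : ℤ) ∣ A) (x n : ℤ) (hn : 0 < n) :
    Set.BijOn fo (FF A x n ∩ Function.support fun t => gn A (fo t))
    (SP A x n ∩ Function.support fun q => gn A q) := by
  have hA0' : (0 : ℤ) < A := by exact_mod_cast hA0
  refine ⟨?_, ?_, ?_⟩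
  · rintro ⟨a, a', c, c'⟩ ⟨⟨pa, pa', h5, hdt, pX, pY⟩, hs⟩
    simp only at pa pa' h5 hdt pX pY
    have hform : a * a' * x ^ 2 + (a * c' + a' * c) * x * n + c * c' * n ^ 2 < 0 := by
      have e : a * a' * x ^ 2 + (a * c' + a' * c) * x * n + c * c' * n ^ 2 =
        -(-(a * x + c * n) * (a' * x + c' * n)) := by ring
      rw [e]
      have := mul_pos pX pY
      linarith
    refine ⟨⟨⟨⟨?_, Dvd.dvd.mul_left h5 a⟩, mul_pos pa pa', hform⟩, ?_⟩, hs⟩
    · show (a * c' + a' * c) ^ 2 - 4 * (a * a') * (c * c') = (A : ℤ) ^ 2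
      linear_combination (a * c' - a' * c + A) * hdt
    · show (17 : ℤ) ∣ (a * c' + a' * c) - A
      have e : (a * c' + a' * c) - (A : ℤ) = a' * (2 * c) := by linear_combination hdt
      rw [e]
      exact h5.mul_right _
  · rintro ⟨a, a', c, c'⟩ ⟨⟨pa, pa', h5, hdt, pX, pY⟩, hs⟩ ⟨a1, a1', c1, c1'⟩
      ⟨⟨pa1, pa1', h51, hdt1, pX1, pY1⟩, hs1⟩ e
    simp only at pa pa' h5 hdt pX pY pa1 pa1' h51 hdt1 pX1 pY1
    have hc : IsCoprime a c := cop_of_gn hdt hs hA0.ne'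
    have hc1 : IsCoprime a1 c1 := cop_of_gn hdt1 hs1 hA0.ne'
    simp only [fo, Prod.mk.injEq] at e
    obtain ⟨e1, e2, e3⟩ := e
    obtain ⟨k1, k2, k3, k4⟩ := inj_gen pa' pa1' hc hc1 hdt hdt1 pa e1 e2
    rw [k1, k2, k3, k4]
  · rintro ⟨a0, B, C⟩ ⟨⟨⟨⟨hd, h17⟩, ha0, hN⟩, hor⟩, hs⟩
    simp only at hd h17 ha0 hN hor
    have hpar : (2 : ℤ) ∣ B - A := by
      have h1 : (2 : ℤ) ∣ (B - A) * (B + A) := ⟨2 * (a0 * C), by linear_combination hd⟩
      rcases Int.prime_two.dvd_or_dvd h1 with h2 | h2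
      · exact h2
      · have e : B - A = B + A - 2 * A := by ring
        rw [e]
        exact dvd_sub h2 ⟨A, rfl⟩
    obtain ⟨γ, hγ⟩ := hpar
    have hB : B = 2 * γ + A := by linarith
    subst hB
    have hAC : a0 * C = γ * (γ + A) := by linarith
    obtain ⟨a, a', c, c', pa, pa', ha, hc, hc', hC, hcop⟩ := exists_fac ha0 hAC
    have hdt : a * c' - a' * c = A := by rw [← hc', ← hc]; ring
    have h17γ : (17 : ℤ) ∣ γ := by
      have e : 2 * γ + (A : ℤ) - A = 2 * γ := by ring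
      rw [e] at hor
      exact (Int.Prime.dvd_mul' (by norm_num : Nat.Prime 17) hor).resolve_left (by norm_num)
    have n5 : ¬ (17 : ℤ) ∣ a := by
      intro h
      apply hA17
      have h1 : (17 : ℤ) ∣ γ + A := by rw [hc']; exact Dvd.dvd.mul_right h _
      exact (Int.dvd_add_right h17γ).1 h1
    have d5 : (17 : ℤ) ∣ a' := by
      have : (17 : ℤ) ∣ a * a' := by rw [← ha]; exact h17
      exact (Int.Prime.dvd_mul' (by norm_num : Nat.Prime 17) this).resolve_left n5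
    have hs' : 0 < -(a * x + c * n) ∧ 0 < a' * x + c' * n := by
      refine sign_of pa pa' hA0' hn hdt ?_
      have e : a * a' * x ^ 2 + (a * c' + a' * c) * x * n + c * c' * n ^ 2 =
        a0 * x ^ 2 + (2 * γ + A) * x * n + C * n ^ 2 := by
        rw [ha, hC, ← hc', ← hc]
        ring
      rw [e]
      exact hN
    have hfo : fo (a, a', c, c') = (a0, 2 * γ + A, C) := by
      simp only [fo, Prod.mk.injEq]
      exact ⟨ha.symm, by rw [← hc', ← hc]; ring, hC.symm⟩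
    refine ⟨(a, a', c, c'), ⟨⟨pa, pa', d5, hdt, hs'.1, hs'.2⟩, ?_⟩, hfo⟩
    rw [Function.mem_support, hfo]
    exact hs

theorem GP_plus {A : ℕ} (hA0 : 0 < A) (hA17 : ¬ (17 : ℤ) ∣ A) (x n : ℤ) (hn : 0 < n) :
    ∑ᶠ q ∈ SP A x n, gn A q = GP A A x n := by
  unfold GP
  rw [← finsum_mem_inter_support, ← finsum_mem_inter_support (fun t => gn A (fo t)) (FF A x n)]
  exact (finsum_mem_eq_of_bijOn fo (bijP hA0 hA17 x n hn) fun t _ => rfl).symm

theorem flip_bij (A : ℕ) (x n : ℤ) : Set.BijOn (fun q : ℤ × ℤ × ℤ => (q.1, -q.2.1, q.2.2))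
    (SM A x n) (SP A (-x) n) := by
  refine ⟨?_, ?_, ?_⟩
  · rintro ⟨a, B, C⟩ ⟨⟨⟨hd, h17⟩, ha0, hN⟩, hor⟩
    simp only at hd h17 ha0 hN hor
    refine ⟨⟨⟨?_, h17⟩, ha0, ?_⟩, ?_⟩
    · show (-B) ^ 2 - 4 * a * C = (A : ℤ) ^ 2
      linear_combination hd
    · show a * (-x) ^ 2 + (-B) * (-x) * n + C * n ^ 2 < 0
      calc _ = a * x ^ 2 + B * x * n + C * n ^ 2 := by ring
        _ < 0 := hN
    · show (17 : ℤ) ∣ -B - A
      have e : -B - (A : ℤ) = -(B + A) := by ring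
      rw [e]
      exact hor.neg_right
  · rintro ⟨a, B, C⟩ - ⟨a1, B1, C1⟩ - h
    simp only [Prod.mk.injEq, neg_inj] at h
    obtain ⟨rfl, rfl, rfl⟩ := h
    rfl
  · rintro ⟨a, B, C⟩ ⟨⟨⟨hd, h17⟩, ha0, hN⟩, hor⟩
    simp only at hd h17 ha0 hN hor
    refine ⟨(a, -B, C), ⟨⟨⟨?_, h17⟩, ha0, ?_⟩, ?_⟩, ?_⟩
    · show (-B) ^ 2 - 4 * a * C = (A : ℤ) ^ 2
      linear_combination hd
    · show a * x ^ 2 + (-B) * x * n + C * n ^ 2 < 0
      calc _ = a * (-x) ^ 2 + B * (-x) * n + C * n ^ 2 := by ring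
        _ < 0 := hN
    · show (17 : ℤ) ∣ -B + A
      have e : -B + (A : ℤ) = -(B - A) := by ring
      rw [e]
      exact hor.neg_right
    · simp only [neg_neg]

open Classical in
/-- the counting function by orientation -/
theorem Fg_eq {A : ℕ} (hA0 : 0 < A) (hA17 : ¬ (17 : ℤ) ∣ A) (x n : ℤ) (hn : 0 < n) :
    Fg A x n = GP A A x n - GP A A (-x) n := by
  have hf := SA_fin A x n hn
  have fP : (SP A x n).Finite := hf.subset fun _ h => h.1
  have fM : (SM A x n).Finite := hf.subset fun _ h => h.1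
  have e1 : Fg A x n = ∑ᶠ q ∈ SA A x n, (if (17 : ℤ) ∣ q.2.1 - A then 1 else -1) * gn A q := by
    unfold Fg
    refine finsum_congr fun q => ?_
    rw [finsum_eq_if]
    by_cases h : q ∈ SA A x n
    · rw [if_pos h]
      exact if_pos h
    · rw [if_neg h]
      exact if_neg h
  rw [e1, SA_split, finsum_mem_union (disj hA17 x n) fP fM]
  have e2 : ∑ᶠ q ∈ SP A x n, (if (17 : ℤ) ∣ q.2.1 - A then 1 else -1) * gn A q = GP A A x n := by
    rw [← GP_plus hA0 hA17 x n hn]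
    refine finsum_mem_congr rfl fun q hq => ?_
    rw [if_pos hq.2, one_mul]
  have e3 : ∑ᶠ q ∈ SM A x n, (if (17 : ℤ) ∣ q.2.1 - A then 1 else -1) * gn A q =
      -GP A A (-x) n := by
    rw [← GP_plus hA0 hA17 (-x) n hn, ← finsum_mem_eq_of_bijOn _ (flip_bij A x n)
      (f := fun q => gn A q) (fun q _ => rfl), ← finsum_mem_neg_distrib _ fM]
    refine finsum_mem_congr rfl fun q hq => ?_
    have h1 : ¬ (17 : ℤ) ∣ q.2.1 - A := fun h =>
      Set.disjoint_left.1 (disj hA17 x n) (⟨hq.1, h⟩ : q ∈ SP A x n) hq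
    rw [if_neg h1]
    ring
  rw [e2, e3]
  ring

/-! ### the data -/

/-- the weight of the data -/
def PL (A N : ℕ) (w : Σ _ : ℕ, ℕ × ℕ) : ℤ :=
  ∏ p ∈ A.primeFactors, psl p w.2.1 w.2.2 ((N - w.1) / w.2.1) (w.1 / w.2.2)

theorem jac_congr {p : ℕ} {x y : ℤ} (h : (p : ℤ) ∣ x - y) : jacobiSym x p = jacobiSym y p := by
  apply jacobiSym.mod_left'
  exact Int.emod_eq_emod_iff_emod_sub_eq_zero.2 (Int.emod_eq_zero_of_dvd h)

theorem jac_sq_mul {p : ℕ} {x y : ℤ} (h : IsCoprime x (p : ℤ)) :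
    jacobiSym (x ^ 2 * y) p = jacobiSym y p := by
  have h1 : Int.gcd x p = 1 := Int.isCoprime_iff_gcd_eq_one.1 h
  rw [jacobiSym.mul_left, jacobiSym.pow_left, jacobiSym.sq_one h1, one_mul]

theorem gn_data {A n d : ℕ} (hA : A ∣ d) (hn : 0 < n) (hcop : Nat.Coprime A n) (x : ℤ)
    {w : Σ _ : ℕ, ℕ × ℕ} (hw : w ∈ (Om (d * n)).filter (Cd n (d * n) x)) :
    gn A (fo (fw n (d * n) x w)) = PL A (d * n) w := by
  obtain ⟨T, a, a'⟩ := w
  rw [Finset.mem_filter] at hw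
  obtain ⟨X, Y, c, c', f, hf⟩ := facts n (d * n) hn x T a a' hw.1 hw.2
  rw [hf]
  unfold gn PL
  refine Finset.prod_congr rfl fun p hp => ?_
  have hpp := Nat.prime_of_mem_primeFactors hp
  have hpA := Nat.dvd_of_mem_primeFactors hp
  simp only [f.hX, f.hY]
  have hpd : (p : ℤ) ∣ (d : ℤ) := by exact_mod_cast hpA.trans hA
  have hm' : (n : ℤ) ≠ 0 := by exact_mod_cast hn.ne'
  have hdet : (a : ℤ) * c' - a' * c = d := by
    have e1 : (n : ℤ) * (a * c' - a' * c) = n * d := by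
      have := f.h3
      push_cast at this
      linear_combination this - a * f.hc' + a' * f.hc
    exact mul_left_cancel₀ hm' e1
  have hpn : IsCoprime (n : ℤ) (p : ℤ) := by
    refine Nat.isCoprime_iff_coprime.2 ?_
    exact (Nat.Coprime.coprime_dvd_left hpA hcop).symm
  have hpP : Prime (p : ℤ) := Nat.prime_iff_prime_int.1 hpp
  unfold gen psl fo
  simp only
  by_cases h1 : p ∣ a ∧ p ∣ a'
  · have h2 : (p : ℤ) ∣ (a : ℤ) * a' := Dvd.dvd.mul_right (by exact_mod_cast h1.1) _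
    rw [if_pos h2, if_pos h1, ← jac_sq_mul (y := c * c') hpn]
    refine jac_congr ?_
    have ha : (p : ℤ) ∣ (a : ℤ) := by exact_mod_cast h1.1
    have ha' : (p : ℤ) ∣ (a' : ℤ) := by exact_mod_cast h1.2
    have e : (n : ℤ) ^ 2 * (c * c') - (-((X * Y : ℕ) : ℤ)) = a' * (x * X + a * x ^ 2) - a * (x * Y) := by
      push_cast
      have e1 := f.hc
      have e2 := f.hc'
      linear_combination (-(n : ℤ) * c') * e1 + ((X : ℤ) + a * x) * e2
    rw [e]
    exact dvd_sub (ha'.mul_right _) (ha.mul_right _)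
  · rw [if_neg h1]
    by_cases h2 : (p : ℤ) ∣ (a : ℤ) * a'
    · rw [if_pos h2]
      have h3 : jacobiSym ((a * a' : ℕ) : ℤ) p = 0 := by
        refine jac_zero_of_dvd hpp ?_
        push_cast
        exact h2
      rw [h3]
      refine jac_zero_of_dvd hpp ?_
      rcases hpP.dvd_or_dvd h2 with h4 | h4
      · have h5 : (p : ℤ) ∣ a' * c := by
          have := dvd_sub (h4.mul_right c') hpd
          rw [← hdet, sub_sub_cancel] at this
          exact this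
        rcases hpP.dvd_or_dvd h5 with h6 | h6
        · exact absurd ⟨by exact_mod_cast h4, by exact_mod_cast h6⟩ h1
        · exact h6.mul_right _
      · have h5 : (p : ℤ) ∣ a * c' := by
          have := dvd_add hpd (h4.mul_right c)
          rw [← hdet, sub_add_cancel] at this
          exact this
        rcases hpP.dvd_or_dvd h5 with h6 | h6
        · exact absurd ⟨by exact_mod_cast h6, by exact_mod_cast h4⟩ h1
        · exact h6.mul_left _
    · rw [if_neg h2]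
      push_cast
      rfl

theorem GP_data {A n d : ℕ} (hA : A ∣ d) (hd : 0 < d) (hn : 0 < n) (hcop : Nat.Coprime A n) (x : ℤ) :
    GP d A x n = ∑ w ∈ (Om (d * n)).filter (Cd n (d * n) x), PL A (d * n) w := by
  unfold GP
  rw [← finsum_mem_eq_of_bijOn (fw n (d * n) x) (bijOn n d hn hd x)
    (f := fun w => PL A (d * n) w) (fun w hw => (gn_data hA hn hcop x (by exact_mod_cast hw)).symm)]
  rw [finsum_mem_coe_finset]

theorem Cd_shift (n N : ℕ) (x k : ℤ) (w : Σ _ : ℕ, ℕ × ℕ) : Cd n N (x + n * k) w ↔ Cd n N x w := by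
  unfold Cd
  have e1 : (w.2.1 : ℤ) * (x + n * k) + ((w.1 / w.2.2 : ℕ) : ℤ) =
      (w.2.1 : ℤ) * x + ((w.1 / w.2.2 : ℕ) : ℤ) + n * (w.2.1 * k) := by ring
  have e2 : (w.2.2 : ℤ) * (x + n * k) - (((N - w.1) / w.2.1 : ℕ) : ℤ) =
      (w.2.2 : ℤ) * x - (((N - w.1) / w.2.1 : ℕ) : ℤ) + n * (w.2.2 * k) := by ring
  rw [e1, e2, Int.dvd_add_left (dvd_mul_right _ _), Int.dvd_add_left (dvd_mul_right _ _)]

theorem GP_shift {A n d : ℕ} (hA : A ∣ d) (hd : 0 < d) (hn : 0 < n) (hcop : Nat.Coprime A n)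
    (x k : ℤ) : GP d A (x + n * k) n = GP d A x n := by
  rw [GP_data hA hd hn hcop, GP_data hA hd hn hcop]
  refine Finset.sum_congr ?_ fun w _ => rfl
  ext w
  rw [Finset.mem_filter, Finset.mem_filter, Cd_shift]

/-- the sum over the data with the right kernel symbols -/
theorem sum_data {A m d : ℕ} (hA : A ∣ d) (hd : 0 < d) (hm : Squarefree m) (hcop : Nat.Coprime A m)
    (hdm : Nat.Coprime d m) :
    ∑ u ∈ un m, jacobiSym u m * GP d A u m = WTg A m (d * m) := by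
  have hm0 : 0 < m := Nat.pos_of_ne_zero hm.ne_zero
  have h1 : ∀ u ∈ un m, jacobiSym u m * GP d A u m =
      ∑ w ∈ Om (d * m), (if Cd m (d * m) u w then PL A (d * m) w * jacobiSym u m else 0) := by
    intro u _
    rw [GP_data hA hd hm0 hcop, Finset.mul_sum, Finset.sum_filter]
    refine Finset.sum_congr rfl fun w _ => ?_
    split_ifs <;> ring
  rw [Finset.sum_congr rfl h1, Finset.sum_comm]
  have hP : ∀ p ∈ m.primeFactors, p.Prime := fun p hp => Nat.prime_of_mem_primeFactors hp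
  have hprod : ∏ p ∈ m.primeFactors, p = m := Nat.prod_primeFactors_of_squarefree hm
  have h2 : ∀ w ∈ Om (d * m), ∑ u ∈ un m,
      (if Cd m (d * m) u w then PL A (d * m) w * jacobiSym u m else 0) =
      PL A (d * m) w * ∏ p ∈ m.primeFactors,
        psp p w.2.1 w.2.2 ((d * m - w.1) / w.2.1) (w.1 / w.2.2) := by
    rintro ⟨T, a, a'⟩ hw
    have hw' := hw
    unfold Om at hw'
    simp only [Finset.mem_sigma, Finset.mem_filter, Finset.mem_range, Finset.mem_product,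
      Nat.mem_divisors] at hw'
    obtain ⟨⟨hT, hT5⟩, ⟨h3, h4⟩, ⟨h5, h6⟩, h7⟩ := hw'
    have hdet : a * ((d * m - T) / a) + a' * (T / a') = d * m := by
      rw [Nat.mul_div_cancel' h3, Nat.mul_div_cancel' h5]
      omega
    have key := gen_C1B m.primeFactors hP a a' (T / a') ((d * m - T) / a) (d * m) hdet (by
      intro p hp
      have hpp := hP p hp
      have hpm : p ∣ m := Nat.dvd_of_mem_primeFactors hp
      refine ⟨hpm.mul_left d, fun h => ?_⟩
      have hc : Nat.Coprime (p ^ 2) d :=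
        Nat.Coprime.pow_left 2 (Nat.Coprime.coprime_dvd_left hpm hdm.symm)
      have h8 := hc.dvd_of_dvd_mul_left h
      rw [pow_two] at h8
      exact hpp.one_lt.ne' (Nat.isUnit_iff.1 (hm p h8)))
    rw [hprod] at key
    simp only
    rw [← key, Finset.sum_filter, Finset.mul_sum]
    refine Finset.sum_congr rfl fun u _ => ?_
    by_cases hC : Cd m (d * m) u ⟨T, (a, a')⟩
    · rw [if_pos hC]
      congr 1
      exact (if_pos hC).symm
    · rw [if_neg hC]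
      have h0 : (if (m : ℤ) ∣ (a : ℤ) * (u : ℤ) + ((T / a' : ℕ) : ℤ) ∧
          (m : ℤ) ∣ (a' : ℤ) * (u : ℤ) - (((d * m - T) / a : ℕ) : ℤ) then jacobiSym u m else 0) = 0 :=
        if_neg hC
      rw [h0, mul_zero]
  rw [Finset.sum_congr rfl h2]
  unfold WTg Wg Om
  rw [Finset.sum_sigma]
  refine Finset.sum_congr rfl fun T _ => ?_
  rw [Finset.sum_product]
  rfl

theorem un_refl {m : ℕ} (hm : 1 < m) (f : ℤ → ℤ) :
    ∑ u ∈ un m, f ((m : ℤ) - u) = ∑ u ∈ un m, f u := by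
  have hun : ∀ u ∈ un m, m - u ∈ un m := by
    intro u hu
    unfold un at hu ⊢
    rw [Finset.mem_filter, Finset.mem_range] at hu ⊢
    have hu0 : u ≠ 0 := by
      rintro rfl
      have := hu.2
      rw [Nat.coprime_zero_left] at this
      omega
    refine ⟨by omega, ?_⟩
    rw [Nat.coprime_comm, Nat.coprime_self_sub_right hu.1.le, Nat.coprime_comm]
    exact hu.2
  have hle : ∀ u ∈ un m, u < m := by
    intro u hu
    unfold un at hu
    rw [Finset.mem_filter, Finset.mem_range] at hu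
    exact hu.1
  refine Finset.sum_nbij' (fun u => m - u) (fun u => m - u) hun hun ?_ ?_ ?_
  · intro u hu
    have := hle u hu
    omega
  · intro u hu
    have := hle u hu
    omega
  · intro u hu
    rw [Nat.cast_sub (hle u hu).le]

/-- the odd character and the reflection -/
theorem odd_sum {A m d : ℕ} (hA : A ∣ d) (hd : 0 < d) (hm : 1 < m) (h4 : m % 4 = 3)
    (hcop : Nat.Coprime A m) :
    ∑ u ∈ un m, jacobiSym u m * GP d A (-(u : ℤ)) m = -∑ u ∈ un m, jacobiSym u m * GP d A u m := by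
  have h1 := un_refl hm (fun u => jacobiSym u m * GP d A (-u) m)
  rw [← h1, ← Finset.sum_neg_distrib]
  refine Finset.sum_congr rfl fun u _ => ?_
  rw [jac_odd h4]
  have e : -((m : ℤ) - u) = (u : ℤ) + m * (-1) := by ring
  rw [e, GP_shift hA hd (by omega) hcop]
  ring

/-- **C1AG** -/
theorem t_C1AG : S_C1AG := by
  intro A m hP hA1
  obtain ⟨⟨hAs, hA4, hA17⟩, ⟨hms, hm4, hm17⟩, hcop⟩ := hP
  have hA0 : 0 < A := by omega
  have hm0 : (0 : ℤ) < m := by exact_mod_cast (by omega : 0 < m)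
  have h17 := not_dvd_of_Cp hA17
  have e1 : ∑ u ∈ un m, jacobiSym u m * Fg A u m = ∑ u ∈ un m, jacobiSym u m * GP A A u m -
      ∑ u ∈ un m, jacobiSym u m * GP A A (-(u : ℤ)) m := by
    rw [← Finset.sum_sub_distrib]
    refine Finset.sum_congr rfl fun u _ => ?_
    rw [Fg_eq hA0 h17 _ _ hm0]
    ring
  rw [e1, odd_sum (dvd_refl A) hA0 (by omega) hm4 hcop,
    sum_data (dvd_refl A) hA0 hms hcop hcop]
  ring

/-! ### the Hecke operator at `2` -/

/-- the three maps of the factorizations -/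
def f1 (t : ℤ × ℤ × ℤ × ℤ) : ℤ × ℤ × ℤ × ℤ := (2 * t.1, 2 * t.2.1, t.2.2.1, t.2.2.2)

def f2 (t : ℤ × ℤ × ℤ × ℤ) : ℤ × ℤ × ℤ × ℤ := (t.1, t.2.1, 2 * t.2.2.1, 2 * t.2.2.2)

def f3 (t : ℤ × ℤ × ℤ × ℤ) : ℤ × ℤ × ℤ × ℤ :=
  (t.1, t.2.1, t.1 + 2 * t.2.2.1, t.2.1 + 2 * t.2.2.2)

theorem f1_inj : Function.Injective f1 := by
  rintro ⟨a, b, c, d⟩ ⟨a1, b1, c1, d1⟩ h
  simp only [f1, Prod.mk.injEq] at h ⊢
  omega

theorem f2_inj : Function.Injective f2 := by
  rintro ⟨a, b, c, d⟩ ⟨a1, b1, c1, d1⟩ h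
  simp only [f2, Prod.mk.injEq] at h ⊢
  omega

theorem f3_inj : Function.Injective f3 := by
  rintro ⟨a, b, c, d⟩ ⟨a1, b1, c1, d1⟩ h
  simp only [f3, Prod.mk.injEq] at h ⊢
  omega

/-- the factorizations of determinant `2 D`, `D` odd -/
theorem FF_two {D : ℤ} (hD : D % 2 = 1) (x n : ℤ) : FF (2 * D) x n =
    f1 '' FF D (2 * x) n ∪ (f2 '' FF D x (2 * n) ∪ f3 '' FF D (x + n) (2 * n)) := by
  ext ⟨a, a', c, c'⟩
  constructor
  · rintro ⟨pa, pa', h5, hdt, pX, pY⟩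
    simp only at pa pa' h5 hdt pX pY
    have hev : (2 : ℤ) ∣ a * c' - a' * c := ⟨D, hdt⟩
    by_cases h1 : (2 : ℤ) ∣ a ∧ (2 : ℤ) ∣ a'
    · left
      obtain ⟨⟨k, rfl⟩, ⟨l, rfl⟩⟩ := h1
      refine ⟨(k, l, c, c'), ⟨by show 0 < k; omega, by show 0 < l; omega, ?_, ?_, ?_, ?_⟩, rfl⟩
      · show (17 : ℤ) ∣ l
        omega
      · show k * c' - l * c = D
        have : 2 * (k * c' - l * c) = 2 * D := by linarith
        linarith
      · show 0 < -(k * (2 * x) + c * n)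
        have e : -(k * (2 * x) + c * n) = -(2 * k * x + c * n) := by ring
        rw [e]; exact pX
      · show 0 < l * (2 * x) + c' * n
        have e : l * (2 * x) + c' * n = 2 * l * x + c' * n := by ring
        rw [e]; exact pY
    · right
      by_cases h2 : (2 : ℤ) ∣ c ∧ (2 : ℤ) ∣ c'
      · left
        obtain ⟨⟨k, rfl⟩, ⟨l, rfl⟩⟩ := h2
        refine ⟨(a, a', k, l), ⟨pa, pa', h5, ?_, ?_, ?_⟩, rfl⟩
        · show a * l - a' * k = D
          have : 2 * (a * l - a' * k) = 2 * D := by linarith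
          linarith
        · show 0 < -(a * x + k * (2 * n))
          have e : -(a * x + k * (2 * n)) = -(a * x + 2 * k * n) := by ring
          rw [e]; exact pX
        · show 0 < a' * x + l * (2 * n)
          have e : a' * x + l * (2 * n) = a' * x + 2 * l * n := by ring
          rw [e]; exact pY
      · right
        have h3 : (2 : ℤ) ∣ c - a ∧ (2 : ℤ) ∣ c' - a' := by
          have p1 : a % 2 = 0 ∨ a % 2 = 1 := by omega
          have p2 : a' % 2 = 0 ∨ a' % 2 = 1 := by omega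
          have p3 : c % 2 = 0 ∨ c % 2 = 1 := by omega
          have p4 : c' % 2 = 0 ∨ c' % 2 = 1 := by omega
          have e0 : (a * c' - a' * c) % 2 = 0 := Int.emod_eq_zero_of_dvd hev
          rw [Int.sub_emod, Int.mul_emod, Int.mul_emod a'] at e0
          rcases p1 with p1 | p1 <;> rcases p2 with p2 | p2 <;> rcases p3 with p3 | p3 <;>
            rcases p4 with p4 | p4 <;> rw [p1, p2, p3, p4] at e0 <;> norm_num at e0 <;>
            first
            | (exfalso; exact h1 ⟨by omega, by omega⟩)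
            | (exfalso; exact h2 ⟨by omega, by omega⟩)
            | exact ⟨by omega, by omega⟩
        obtain ⟨⟨k, hk⟩, ⟨l, hl⟩⟩ := h3
        have ec : c = a + 2 * k := by linarith
        have ec' : c' = a' + 2 * l := by linarith
        subst ec ec'
        refine ⟨(a, a', k, l), ⟨pa, pa', h5, ?_, ?_, ?_⟩, rfl⟩
        · show a * l - a' * k = D
          have : 2 * (a * l - a' * k) = 2 * D := by linarith
          linarith
        · show 0 < -(a * (x + n) + k * (2 * n))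
          have e : -(a * (x + n) + k * (2 * n)) = -(a * x + (a + 2 * k) * n) := by ring
          rw [e]; exact pX
        · show 0 < a' * (x + n) + l * (2 * n)
          have e : a' * (x + n) + l * (2 * n) = a' * x + (a' + 2 * l) * n := by ring
          rw [e]; exact pY
  · rintro (⟨⟨b, b', e, e'⟩, ⟨pa, pa', h5, hdt, pX, pY⟩, h⟩ |
      ⟨⟨b, b', e, e'⟩, ⟨pa, pa', h5, hdt, pX, pY⟩, h⟩ |
      ⟨⟨b, b', e, e'⟩, ⟨pa, pa', h5, hdt, pX, pY⟩, h⟩)
    · simp only [f1, Prod.mk.injEq] at h pa pa' h5 hdt pX pY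
      obtain ⟨rfl, rfl, rfl, rfl⟩ := h
      refine ⟨?_, ?_, ?_, ?_, ?_, ?_⟩
      · show 0 < 2 * b
        linarith
      · show 0 < 2 * b'
        linarith
      · show (17 : ℤ) ∣ 2 * b'
        exact h5.mul_left 2
      · show 2 * b * e' - 2 * b' * e = 2 * D
        linarith
      · show 0 < -(2 * b * x + e * n)
        have k : -(b * (2 * x) + e * n) = -(2 * b * x + e * n) := by ring
        rw [← k]; exact pX
      · show 0 < 2 * b' * x + e' * n
        have k : b' * (2 * x) + e' * n = 2 * b' * x + e' * n := by ring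
        rw [← k]; exact pY
    · simp only [f2, Prod.mk.injEq] at h pa pa' h5 hdt pX pY
      obtain ⟨rfl, rfl, rfl, rfl⟩ := h
      refine ⟨pa, pa', h5, ?_, ?_, ?_⟩
      · show b * (2 * e') - b' * (2 * e) = 2 * D
        linarith
      · show 0 < -(b * x + 2 * e * n)
        have k : -(b * x + e * (2 * n)) = -(b * x + 2 * e * n) := by ring
        rw [← k]; exact pX
      · show 0 < b' * x + 2 * e' * n
        have k : b' * x + e' * (2 * n) = b' * x + 2 * e' * n := by ring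
        rw [← k]; exact pY
    · simp only [f3, Prod.mk.injEq] at h pa pa' h5 hdt pX pY
      obtain ⟨rfl, rfl, rfl, rfl⟩ := h
      refine ⟨pa, pa', h5, ?_, ?_, ?_⟩
      · show b * (b' + 2 * e') - b' * (b + 2 * e) = 2 * D
        linarith
      · show 0 < -(b * x + (b + 2 * e) * n)
        have k : -(b * (x + n) + e * (2 * n)) = -(b * x + (b + 2 * e) * n) := by ring
        rw [← k]; exact pX
      · show 0 < b' * x + (b' + 2 * e') * n
        have k : b' * (x + n) + e' * (2 * n) = b' * x + (b' + 2 * e') * n := by ring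
        rw [← k]; exact pY

theorem disj12 {D : ℤ} (hD : D % 2 = 1) (x n : ℤ) : Disjoint (f1 '' FF D (2 * x) n)
    (f2 '' FF D x (2 * n) ∪ f3 '' FF D (x + n) (2 * n)) := by
  have key : ∀ t : ℤ × ℤ × ℤ × ℤ, t.1 * t.2.2.2 - t.2.1 * t.2.2.1 = D → ¬ ((2 : ℤ) ∣ t.1 ∧ (2 : ℤ) ∣ t.2.1) := by
    rintro ⟨a, a', c, c'⟩ h ⟨⟨k, hk⟩, ⟨l, hl⟩⟩
    simp only at h hk hl
    rw [hk, hl] at h
    have : (2 : ℤ) ∣ D := ⟨k * c' - l * c, by rw [← h]; ring⟩
    omega
  rw [Set.disjoint_left]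
  rintro _ ⟨t, -, rfl⟩ (⟨s, hs, h⟩ | ⟨s, hs, h⟩)
  · simp only [f1, f2, Prod.mk.injEq] at h
    exact key s hs.2.2.2.1 ⟨⟨t.1, h.1⟩, ⟨t.2.1, h.2.1⟩⟩
  · simp only [f1, f3, Prod.mk.injEq] at h
    exact key s hs.2.2.2.1 ⟨⟨t.1, h.1⟩, ⟨t.2.1, h.2.1⟩⟩

theorem disj23 {D : ℤ} (hD : D % 2 = 1) (x n : ℤ) : Disjoint (f2 '' FF D x (2 * n))
    (f3 '' FF D (x + n) (2 * n)) := by
  rw [Set.disjoint_left]
  rintro _ ⟨⟨a, a', c, c'⟩, ht, rfl⟩ ⟨⟨b, b', e, e'⟩, hs, h⟩
  simp only [f2, f3, Prod.mk.injEq] at h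
  obtain ⟨rfl, rfl, h3, h4⟩ := h
  have h := ht.2.2.2.1
  simp only at h
  obtain ⟨k, hk⟩ : (2 : ℤ) ∣ b := ⟨c - e, by linarith⟩
  obtain ⟨l, hl⟩ : (2 : ℤ) ∣ b' := ⟨c' - e', by linarith⟩
  rw [hk, hl] at h
  have : (2 : ℤ) ∣ D := ⟨k * c' - l * c, by rw [← h]; ring⟩
  omega

/-- the genus character of an odd conductor is invariant under the substitutions of determinant
`2` -/
theorem gn_congr {A : ℕ} {q q' : ℤ × ℤ × ℤ} (h1 : ∀ p : ℕ, p.Prime → p ∣ A →
    gen p q = gen p q') : gn A q = gn A q' := by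
  unfold gn
  exact Finset.prod_congr rfl fun p hp => h1 p (Nat.prime_of_mem_primeFactors hp)
    (Nat.dvd_of_mem_primeFactors hp)

theorem gen_four {p : ℕ} (hp : p.Prime) (hp2 : p ≠ 2) {a c a1 c1 : ℤ}
    (h1 : (p : ℤ) ∣ a ↔ (p : ℤ) ∣ a1) (h2 : (¬ (p : ℤ) ∣ a) → jacobiSym a p = jacobiSym a1 p)
    (h3 : (p : ℤ) ∣ a → jacobiSym c p = jacobiSym c1 p) (b b1 : ℤ) :
    gen p (a, b, c) = gen p (a1, b1, c1) := by
  unfold gen
  simp only
  by_cases h : (p : ℤ) ∣ a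
  · rw [if_pos h, if_pos (h1.1 h), h3 h]
  · rw [if_neg h, if_neg (fun k => h (h1.2 k)), h2 h]

theorem cop2 {p : ℕ} (hp : p.Prime) (hp2 : p ≠ 2) : IsCoprime (2 : ℤ) (p : ℤ) := by
  have h1 : Nat.Coprime 2 p := (Nat.coprime_primes Nat.prime_two hp).2 (Ne.symm hp2)
  exact_mod_cast Nat.isCoprime_iff_coprime.2 h1

theorem gn_f1 {A : ℕ} (hA : A % 2 = 1) (t : ℤ × ℤ × ℤ × ℤ) : gn A (fo (f1 t)) = gn A (fo t) := by
  refine gn_congr fun p hp hpA => ?_
  have hp2 : p ≠ 2 := by rintro rfl; omega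
  have hc := cop2 hp hp2
  have e : 2 * t.1 * (2 * t.2.1) = 2 ^ 2 * (t.1 * t.2.1) := by ring
  refine gen_four hp hp2 ?_ ?_ ?_ _ _
  · show (p : ℤ) ∣ 2 * t.1 * (2 * t.2.1) ↔ _
    rw [e]
    exact ⟨fun h => (IsCoprime.pow_right (n := 2) hc.symm).dvd_of_dvd_mul_left h,
      fun h => h.mul_left _⟩
  · intro _
    show jacobiSym (2 * t.1 * (2 * t.2.1)) p = _
    rw [e, jac_sq_mul hc]
  · intro _
    rfl

theorem gn_f2 {A : ℕ} (hA : A % 2 = 1) (t : ℤ × ℤ × ℤ × ℤ) : gn A (fo (f2 t)) = gn A (fo t) := by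
  refine gn_congr fun p hp hpA => ?_
  have hp2 : p ≠ 2 := by rintro rfl; omega
  have hc := cop2 hp hp2
  have e : 2 * t.2.2.1 * (2 * t.2.2.2) = 2 ^ 2 * (t.2.2.1 * t.2.2.2) := by ring
  refine gen_four hp hp2 Iff.rfl (fun _ => rfl) ?_ _ _
  intro _
  show jacobiSym (2 * t.2.2.1 * (2 * t.2.2.2)) p = _
  rw [e, jac_sq_mul hc]

theorem gn_f3 {A : ℕ} (hA : A % 2 = 1) {t : ℤ × ℤ × ℤ × ℤ}
    (hd : t.1 * t.2.2.2 - t.2.1 * t.2.2.1 = A) : gn A (fo (f3 t)) = gn A (fo t) := by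
  refine gn_congr fun p hp hpA => ?_
  have hp2 : p ≠ 2 := by rintro rfl; omega
  have hc := cop2 hp hp2
  have hpA' : (p : ℤ) ∣ (A : ℤ) := by exact_mod_cast hpA
  have hpP : Prime (p : ℤ) := Nat.prime_iff_prime_int.1 hp
  refine gen_four hp hp2 Iff.rfl (fun _ => rfl) ?_ _ _
  intro h
  have h' : (p : ℤ) ∣ t.1 * t.2.1 := h
  show jacobiSym ((t.1 + 2 * t.2.2.1) * (t.2.1 + 2 * t.2.2.2)) p = jacobiSym (t.2.2.1 * t.2.2.2) p
  rw [← jac_sq_mul (y := t.2.2.1 * t.2.2.2) hc]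
  refine jac_congr ?_
  have e : (t.1 + 2 * t.2.2.1) * (t.2.1 + 2 * t.2.2.2) - 2 ^ 2 * (t.2.2.1 * t.2.2.2) =
      t.1 * t.2.1 + 2 * (t.1 * t.2.2.2 + t.2.1 * t.2.2.1) := by ring
  rw [e]
  have h2 : (p : ℤ) ∣ t.1 * t.2.2.2 + t.2.1 * t.2.2.1 := by
    rw [← hd] at hpA'
    rcases hpP.dvd_or_dvd h' with h4 | h4
    · have h5 : (p : ℤ) ∣ t.2.1 * t.2.2.1 := by
        have := dvd_sub (h4.mul_right t.2.2.2) hpA'
        rwa [sub_sub_cancel] at this
      exact dvd_add (h4.mul_right _) h5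
    · have h5 : (p : ℤ) ∣ t.1 * t.2.2.2 := by
        have := dvd_add hpA' (h4.mul_right t.2.2.1)
        rwa [sub_add_cancel] at this
      exact dvd_add h5 (h4.mul_right _)
  exact dvd_add h' (h2.mul_left 2)

/-- the sum over the determinant `2 A` -/
theorem GP_two {A : ℕ} (hA : A % 2 = 1) (hA0 : 0 < A) (x : ℤ) {n : ℕ} (hn : 0 < n) :
    GP A A (2 * x) n + GP A A x (2 * n) + GP A A (x + n) (2 * n) = GP (2 * A) A x n := by
  have hA' : (A : ℤ) % 2 = 1 := by exact_mod_cast (by omega : A % 2 = 1)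
  have e2 : ((2 * n : ℕ) : ℤ) = 2 * n := by push_cast; ring
  have F1 := FF_fin n A hn hA0 (2 * x)
  have F2 := FF_fin (2 * n) A (by omega) hA0 x
  have F3 := FF_fin (2 * n) A (by omega) hA0 (x + n)
  rw [e2] at F2 F3
  unfold GP
  rw [FF_two hA' x n, finsum_mem_union (disj12 hA' x n) (F1.image _) ((F2.image _).union (F3.image _)),
    finsum_mem_union (disj23 hA' x n) (F2.image _) (F3.image _),
    finsum_mem_image f1_inj.injOn, finsum_mem_image f2_inj.injOn, finsum_mem_image f3_inj.injOn,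
    add_assoc]
  congr 1
  · exact finsum_mem_congr rfl fun t _ => (gn_f1 hA t).symm
  · congr 1
    · exact finsum_mem_congr rfl fun t _ => (gn_f2 hA t).symm
    · exact finsum_mem_congr rfl fun t ht => (gn_f3 hA ht.2.2.2.1).symm

/-- **C1BG** -/
theorem t_C1BG : S_C1BG := by
  intro A m hP hA1
  obtain ⟨⟨hAs, hA4, hA17⟩, ⟨hms, hm4, hm17⟩, hcop⟩ := hP
  have hA0 : 0 < A := by omega
  have hm0' : 0 < m := by omega
  have hm0 : (0 : ℤ) < m := by exact_mod_cast hm0'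
  have h17 := not_dvd_of_Cp hA17
  have c2A : Nat.Coprime A 2 := Nat.coprime_two_right.2 (Nat.odd_iff.2 (by omega))
  have c2m : Nat.Coprime 2 m := Nat.coprime_two_left.2 (Nat.odd_iff.2 (by omega))
  have cA2m : Nat.Coprime A (2 * m) := c2A.mul_right hcop
  have key : ∀ u : ℕ, Fg A (2 * u) m + Fg A u (2 * m) + Fg A (u + m) (2 * m) =
      GP (2 * A) A u m - GP (2 * A) A (-(u : ℤ)) m := by
    intro u
    rw [Fg_eq hA0 h17 _ _ hm0, Fg_eq hA0 h17 _ _ (by omega : (0 : ℤ) < 2 * m),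
      Fg_eq hA0 h17 _ _ (by omega : (0 : ℤ) < 2 * m), ← GP_two (by omega) hA0 u hm0',
      ← GP_two (by omega) hA0 (-(u : ℤ)) hm0']
    have e1 : -(2 * (u : ℤ)) = 2 * -(u : ℤ) := by ring
    have e2 : GP A A (-((u : ℤ) + m)) (2 * m) = GP A A (-(u : ℤ) + m) (2 * m) := by
      have h := GP_shift (dvd_refl A) hA0 (n := 2 * m) (by omega) cA2m (-((u : ℤ) + m)) 1
      have e3 : -((u : ℤ) + m) + ((2 * m : ℕ) : ℤ) * 1 = -(u : ℤ) + m := by push_cast; ring
      have e4 : ((2 * m : ℕ) : ℤ) = 2 * m := by push_cast; ring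
      rw [e3, e4] at h
      exact h.symm
    rw [e1, e2]
    ring
  have e1 : ∑ u ∈ un m, jacobiSym u m * (Fg A (2 * u) m + Fg A u (2 * m) + Fg A (u + m) (2 * m)) =
      ∑ u ∈ un m, jacobiSym u m * GP ((2 * A : ℕ) : ℤ) A u m -
      ∑ u ∈ un m, jacobiSym u m * GP ((2 * A : ℕ) : ℤ) A (-(u : ℤ)) m := by
    rw [← Finset.sum_sub_distrib]
    refine Finset.sum_congr rfl fun u _ => ?_
    rw [key]
    push_cast
    ring
  rw [e1, odd_sum (Dvd.intro_left 2 rfl) (by omega) (by omega) hm4 hcop,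
    sum_data (Dvd.intro_left 2 rfl) (by omega) hms hcop (c2m.mul_left hcop), mul_assoc]
  ring

end

end Pool.Agent.N971.PG
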