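import Pool.Agent.N402.P15.C1BE

/-!
# The character sum over the cusps, even discriminants, any multiple of the conductor as determinant
(the proof of `N402/P15/C1BE`, hypotheses relaxed)
-/

set_option autoImplicit false

namespace Pool.Agent.N971.PG

open Finset
open Pool.Agent.N969.P15
open Pool.Agent.N402.P15

theorem gen_C1BE {n : ℕ} (hn : Ev n) {N : ℕ} (hnN : n ∣ N)
    (hpN : ∀ p ∈ n.primeFactors.erase 2, ¬ p ^ 2 ∣ N) (a a' X Y : ℕ) (hdet : a * Y + a' * X = N) :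
    ∑ u ∈ (un n).filter (fun u : ℕ => (n : ℤ) ∣ (a : ℤ) * (u : ℤ) + (X : ℤ) ∧
      (n : ℤ) ∣ (a' : ℤ) * (u : ℤ) - (Y : ℤ)), chE n u =
      psp2 n a a' Y X * ∏ p ∈ n.primeFactors.erase 2, psp p a a' Y X := by
  classical
  obtain ⟨hpos, hfac, hcop, hP, hdiv⟩ := ev_struct hn
  by_cases hpar : a % 2 = 1 ∨ a' % 2 = 1
  swap
  · push Not at hpar
    rw [both_even hn (by omega) (by omega)]
    have : psp2 n a a' Y X = 0 := by
      unfold psp2
      rw [if_neg hpar.1, if_neg hpar.2]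
    rw [this, zero_mul]
  set P := n.primeFactors.erase 2 with hPdef
  set k := ∏ p ∈ P, p with hkdef
  set F := (un n).filter (fun u : ℕ => (n : ℤ) ∣ (a : ℤ) * (u : ℤ) + (X : ℤ) ∧
    (n : ℤ) ∣ (a' : ℤ) * (u : ℤ) - (Y : ℤ)) with hF
  have hqn : q2 n ∣ n := Dvd.intro _ hfac.symm
  have hkn : k ∣ n := Dvd.intro_left _ hfac.symm
  have hqz : (q2 n : ℤ) ∣ (n : ℤ) := by exact_mod_cast hqn
  have hpz : ∀ p ∈ P, (p : ℤ) ∣ (n : ℤ) := fun p hp => by exact_mod_cast (hP p hp).2.2.1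
  have hqN : (q2 n : ℤ) ∣ ((a * Y + a' * X : ℕ) : ℤ) := by
    rw [hdet]; exact_mod_cast hqn.trans hnN
  have h2 : ∀ p ∈ P, ¬ p ^ 2 ∣ a * Y + a' * X := fun p hp h => by
    rw [hdet] at h; exact hpN p hp h
  have h3 : ∀ p ∈ P, p ∣ a * Y + a' * X := fun p hp => by
    rw [hdet]; exact (hP p hp).2.2.1.trans hnN
  have hn2 : 2 ∣ n := (two_dvd_q2 n).trans hqn
  have hodd : ∀ u : ℕ, Nat.Coprime u n → u % 2 = 1 := by
    intro u hu
    by_contra h
    have h1 : 2 ∣ u := by omega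
    have h2 : 2 ∣ Nat.gcd u n := Nat.dvd_gcd h1 hn2
    rw [hu] at h2
    omega
  have hmem : ∀ u ∈ F, u < n ∧ u % 2 = 1 ∧ ((q2 n : ℤ) ∣ a * (u : ℤ) + X ∧
      (q2 n : ℤ) ∣ a' * (u : ℤ) - Y) ∧ ∀ p ∈ P, (p : ℤ) ∣ a * (u : ℤ) + X ∧
      (p : ℤ) ∣ a' * (u : ℤ) - Y ∧ ¬ (p : ℤ) ∣ (u : ℤ) := by
    intro u hu
    rw [hF, Finset.mem_filter, un, Finset.mem_filter, Finset.mem_range] at hu
    obtain ⟨⟨hu1, hu2⟩, hu3, hu4⟩ := hu
    refine ⟨hu1, hodd u hu2, ⟨hqz.trans hu3, hqz.trans hu4⟩,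
      fun p hp => ⟨(hpz p hp).trans hu3, (hpz p hp).trans hu4, fun h => ?_⟩⟩
    have h5 : p ∣ u := by exact_mod_cast h
    have h6 : p ∣ Nat.gcd u n := Nat.dvd_gcd h5 (hP p hp).2.2.1
    rw [hu2] at h6
    exact (hP p hp).1.one_lt.ne' (Nat.dvd_one.1 h6)
  have hval2 : ∀ u ∈ F, c2 n u = psp2 n a a' Y X := fun u hu =>
    c2_val hqN hpar (hmem u hu).2.2.1.1 (hmem u hu).2.2.1.2
  have hvalp : ∀ u ∈ F, ∀ p ∈ P, jacobiSym u p = psp p a a' Y X := by
    intro u hu p hp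
    obtain ⟨h5, h6, h7⟩ := (hmem u hu).2.2.2 p hp
    exact local_eq (hP p hp).1 (h2 p hp) u h5 h6 h7
  have hval : ∀ u ∈ F, chE n u = psp2 n a a' Y X * ∏ p ∈ P, psp p a a' Y X := by
    intro u hu
    unfold chE
    rw [hval2 u hu]
    congr 1
    exact Finset.prod_congr rfl fun p hp => hvalp u hu p hp
  by_cases hz : psp2 n a a' Y X = 0 ∨ ∃ p ∈ P, psp p a a' Y X = 0
  · have hFe : F = ∅ := by
      rw [Finset.eq_empty_iff_forall_notMem]
      intro u hu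
      rcases hz with hz | ⟨p, hp, hp0⟩
      · have h8 := hval2 u hu
        rw [hz] at h8
        have := (hmem u hu).2.1
        exact c2_ne n (x := (u : ℤ)) (by omega) h8
      · have h8 := hvalp u hu p hp
        rw [hp0] at h8
        exact jac_ne_zero (hP p hp).1 ((hmem u hu).2.2.2 p hp).2.2 h8
    rw [hFe, Finset.sum_empty]
    rcases hz with hz | ⟨p, hp, hp0⟩
    · rw [hz, zero_mul]
    · rw [Finset.prod_eq_zero hp hp0, mul_zero]
  · push Not at hz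
    obtain ⟨hz2, hzp⟩ := hz
    have hex : ∀ p : ℕ, ∃ u : ℕ, p ∈ P → (p : ℤ) ∣ a * u + X ∧ (p : ℤ) ∣ a' * u - Y ∧
        ¬ (p : ℤ) ∣ u := by
      intro p
      by_cases hp : p ∈ P
      · obtain ⟨u, hu⟩ := local_ex (hP p hp).1 (h3 p hp) (hzp p hp)
        exact ⟨u, fun _ => hu⟩
      · exact ⟨0, fun h => absurd h hp⟩
    choose f hf using hex
    obtain ⟨w, hw⟩ := Nat.chineseRemainderOfFinset f (fun p => p) P
      (fun p hp => (hP p hp).1.ne_zero) (by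
        intro p hp q hq hpq
        exact (Nat.coprime_primes (hP p hp).1 (hP q hq).1).2 hpq)
    obtain ⟨v2, hv2, hv3, hv4⟩ := two_ex hqN hz2
    obtain ⟨w', hw1, hw2⟩ := Nat.chineseRemainder hcop v2 w
    set u := w' % n with hu
    have hu2 : u ≡ v2 [MOD q2 n] := ((Nat.mod_modEq w' n).of_dvd hqn).trans hw1
    have huk : ∀ p ∈ P, u ≡ f p [MOD p] := by
      intro p hp
      have hpk : p ∣ k := Finset.dvd_prod_of_mem _ hp
      exact (((Nat.mod_modEq w' n).of_dvd (hpk.trans hkn)).trans (hw2.of_dvd hpk)).trans (hw p hp)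
    have hup : ∀ p ∈ P, (p : ℤ) ∣ (u : ℤ) - f p := by
      intro p hp
      have h6 := (Nat.modEq_iff_dvd.1 (huk p hp))
      have : (u : ℤ) - f p = -((f p : ℤ) - u) := by ring
      rw [this]
      exact h6.neg_right
    have huq : (q2 n : ℤ) ∣ (u : ℤ) - v2 := by
      have h6 := (Nat.modEq_iff_dvd.1 hu2)
      have : (u : ℤ) - v2 = -((v2 : ℤ) - u) := by ring
      rw [this]
      exact h6.neg_right
    have hloc : ∀ p ∈ P, (p : ℤ) ∣ a * (u : ℤ) + X ∧ (p : ℤ) ∣ a' * (u : ℤ) - Y ∧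
        ¬ (p : ℤ) ∣ (u : ℤ) := by
      intro p hp
      obtain ⟨h5, h6, h7⟩ := hf p hp
      have h8 := hup p hp
      refine ⟨?_, ?_, fun h => h7 ?_⟩
      · have : (a : ℤ) * (u : ℤ) + X = a * ((u : ℤ) - f p) + (a * f p + X) := by ring
        rw [this]; exact dvd_add (Dvd.dvd.mul_left h8 _) h5
      · have : (a' : ℤ) * (u : ℤ) - Y = a' * ((u : ℤ) - f p) + (a' * f p - Y) := by ring
        rw [this]; exact dvd_add (Dvd.dvd.mul_left h8 _) h6
      · exact dsr h h8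
    have hloc2 : (q2 n : ℤ) ∣ a * (u : ℤ) + X ∧ (q2 n : ℤ) ∣ a' * (u : ℤ) - Y := by
      constructor
      · have : (a : ℤ) * (u : ℤ) + X = a * ((u : ℤ) - v2) + (a * v2 + X) := by ring
        rw [this]; exact dvd_add (Dvd.dvd.mul_left huq _) hv3
      · have : (a' : ℤ) * (u : ℤ) - Y = a' * ((u : ℤ) - v2) + (a' * v2 - Y) := by ring
        rw [this]; exact dvd_add (Dvd.dvd.mul_left huq _) hv4
    have hudd : u % 2 = 1 := by
      have h9 : u ≡ v2 [MOD 2] := hu2.of_dvd (two_dvd_q2 n)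
      have : u % 2 = v2 % 2 := h9
      omega
    have hcopz : IsCoprime (q2 n : ℤ) (k : ℤ) := Nat.isCoprime_iff_coprime.2 hcop
    have hjoin : ∀ x : ℤ, (q2 n : ℤ) ∣ x → (∀ p ∈ P, (p : ℤ) ∣ x) → (n : ℤ) ∣ x := by
      intro x hx1 hx2
      have h9 : (k : ℤ) ∣ x := pr_dvd_int (fun p hp => (hP p hp).1) hx2
      have h10 := hcopz.mul_dvd hx1 h9
      have e : (n : ℤ) = (q2 n : ℤ) * (k : ℤ) := by
        rw [← Nat.cast_mul]
        exact congrArg (fun z : ℕ => (z : ℤ)) hfac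
      rw [e]
      exact h10
    have huF : u ∈ F := by
      rw [hF, Finset.mem_filter, un, Finset.mem_filter, Finset.mem_range]
      refine ⟨⟨Nat.mod_lt _ hpos, ?_⟩, hjoin _ hloc2.1 fun p hp => (hloc p hp).1,
        hjoin _ hloc2.2 fun p hp => (hloc p hp).2.1⟩
      rw [Nat.coprime_iff_gcd_eq_one]
      by_contra hcon
      obtain ⟨p, hp, hpd⟩ := Nat.exists_prime_and_dvd hcon
      have d1 : p ∣ n := hpd.trans (Nat.gcd_dvd_right _ _)
      have d2 : p ∣ u := hpd.trans (Nat.gcd_dvd_left _ _)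
      by_cases hp2 : p = 2
      · rw [hp2] at d2; omega
      · have hpP : p ∈ P := by
          rw [hPdef, Finset.mem_erase, Nat.mem_primeFactors]
          exact ⟨hp2, hp, d1, hpos.ne'⟩
        exact (hloc p hpP).2.2 (by exact_mod_cast d2)
    have hFs : F = {u} := by
      rw [Finset.eq_singleton_iff_unique_mem]
      refine ⟨huF, fun v hv => ?_⟩
      obtain ⟨hv1, hv2', hv3', hv4'⟩ := hmem v hv
      have h5 : (n : ℤ) ∣ (v : ℤ) - u := hjoin _
        (two_uniq hpar hv3'.1 hv3'.2 hloc2.1 hloc2.2) fun p hp =>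
        local_uniq (hP p hp).1 (h2 p hp) v u (hv4' p hp).1 (hv4' p hp).2.1 (hloc p hp).1
          (hloc p hp).2.1
      have h6 : v ≡ u [MOD n] := by
        rw [Nat.modEq_iff_dvd]
        have : (u : ℤ) - v = -((v : ℤ) - u) := by ring
        rw [this]; exact h5.neg_right
      have h7 : v % n = u % n := h6
      rw [Nat.mod_eq_of_lt hv1, Nat.mod_eq_of_lt (Nat.mod_lt _ hpos)] at h7
      exact h7
    rw [hFs, Finset.sum_singleton]
    exact hval u huF

end Pool.Agent.N971.PG
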