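import Pool.Agent.N971.PG.C1
import Pool.Agent.N971.PG.C1BE
import Pool.Agent.N969.P17G.Defs2
import Pool.Agent.N975.ChE

/-!
# P17G: forms of discriminant `A²` with a genus character and the cusps as factorizations,
# even products `A m`
-/

set_option autoImplicit false

namespace Pool.Agent.N971.PG

open Finset
open Pool.Agent.N969.P15 (un psp psp2 Ev c2 chE)
open Pool.Agent.N972.P17 (Cp Cm Cme Cpe)
open Pool.Agent.N969.P17G
open Pool.Agent.N816.P17.CA (FF Om Cd fw facts Fc bijOn FF_fin)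
open Pool.Agent.N973.P15.C (inj_gen exists_fac sign_of fo jac_odd chE_odd)
open Pool.Agent.N402.P15 (gen_C1B)
open Pool.Agent.N975.ChE (c2_mul c2_pm c2_even)

noncomputable section

/-! ### the weight at `2` -/

/-- the residues of the even positive discriminants -/
def Ae (A : ℕ) : Prop := A % 16 = 12 ∨ A % 16 = 8

theorem Ae_of {A : ℕ} (h : CpE A) : Ae A := by
  obtain ⟨M, rfl, -, h1, -⟩ := h
  unfold Ae
  omega

/-- congruent odd values -/
theorem c2_cg {A : ℕ} (hA : Ae A) {x y k : ℤ} (h : x - y = A * k) (hx : x % 2 = 1) :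
    c2 (3 * A) x = c2 (3 * A) y := by
  unfold Ae at hA
  obtain ⟨l, hl⟩ : ∃ l : ℤ, (A : ℤ) = 4 * l := ⟨(A : ℤ) / 4, by omega⟩
  have e : x - y = 4 * (l * k) := by rw [h, hl]; ring
  have hx0 : ¬ x % 2 = 0 := by omega
  have hy0 : ¬ y % 2 = 0 := by omega
  unfold c2
  rw [if_neg hx0, if_neg hy0]
  rcases hA with h1 | h1
  · generalize l * k = z at e
    have h16 : 3 * A % 16 = 4 := by omega
    have : x % 4 = y % 4 := by omega
    rw [if_pos h16, if_pos h16, this]
  · obtain ⟨j, hj⟩ : ∃ j : ℤ, l = 2 * j := ⟨l / 2, by omega⟩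
    rw [hj] at e
    have e' : x - y = 8 * (j * k) := by rw [e]; ring
    generalize j * k = z at e'
    have h2 : x % 8 = y % 8 := by omega
    have h16 : ¬ 3 * A % 16 = 4 := by omega
    rw [if_neg h16, if_neg h16, h2]

theorem c2_one3 {A : ℕ} : c2 (3 * A) 1 = 1 := Pool.Agent.N975.ChE.c2_one _

/-- the value at an odd square -/
theorem c2_sq {A : ℕ} {s : ℤ} (h : s % 2 = 1) : c2 (3 * A) (s * s) = 1 := by
  rw [c2_mul]
  rcases c2_pm (3 * A) h with h1 | h1 <;> rw [h1] <;> norm_num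

/-- the product criterion for equality -/
theorem c2_eq_of {A : ℕ} (hA : Ae A) {y z s k : ℤ} (hs : s % 2 = 1) (hy : y % 2 = 1)
    (hz : z % 2 = 1) (h : y * z = s * (s + A * k)) : c2 (3 * A) y = c2 (3 * A) z := by
  have h1 : c2 (3 * A) (s * s) = c2 (3 * A) (y * z) :=
    c2_cg hA (k := -(s * k)) (by rw [h]; ring) (by rw [Int.mul_emod, hs]; norm_num)
  rw [c2_sq hs, c2_mul] at h1
  rcases c2_pm (3 * A) hy with h2 | h2 <;> rcases c2_pm (3 * A) hz with h3 | h3 <;>
    rw [h2, h3] at h1 ⊢ <;> norm_num at h1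

/-- the product criterion for opposite values -/
theorem c2_opp {A : ℕ} (hA : Ae A) {y z s D : ℤ} (hD : (A : ℤ) = 2 * D) (hs : s % 2 = 1)
    (hy : y % 2 = 1) (hz : z % 2 = 1) (h : y * z = s * (s + D)) :
    c2 (3 * A) y + c2 (3 * A) z = 0 := by
  have h1 : c2 (3 * A) (y * z) = -1 := by
    unfold Ae at hA
    rw [h]
    obtain ⟨t, rfl⟩ : ∃ t, s = 2 * t + 1 := ⟨s / 2, by omega⟩
    have e1 : (2 * t + 1) * (2 * t + 1 + D) = 4 * (t * (t + 1)) + 1 + D * (2 * t + 1) := by ring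
    have e2 : (t * (t + 1)) % 2 = 0 := by
      have h3 : t % 2 = 0 ∨ t % 2 = 1 := by omega
      rw [Int.mul_emod, Int.add_emod]
      rcases h3 with h3 | h3 <;> rw [h3] <;> norm_num
    rw [e1]
    generalize t * (t + 1) = w at e2
    unfold c2
    rcases hA with h4 | h4
    · obtain ⟨D', hD'⟩ : ∃ D', D = 4 * D' + 2 := ⟨(D - 2) / 4, by omega⟩
      have e3 : D * (2 * t + 1) = 4 * (D' * (2 * t + 1) + t) + 2 := by rw [hD']; ring
      rw [e3]
      generalize D' * (2 * t + 1) = v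
      have r0 : ¬ (4 * w + 1 + (4 * (v + t) + 2)) % 2 = 0 := by omega
      have r1 : ¬ (4 * w + 1 + (4 * (v + t) + 2)) % 4 = 1 := by omega
      have h16 : 3 * A % 16 = 4 := by omega
      rw [if_neg r0, if_pos h16, if_neg r1]
    · obtain ⟨D', hD'⟩ : ∃ D', D = 8 * D' + 4 := ⟨(D - 4) / 8, by omega⟩
      have e3 : D * (2 * t + 1) = 8 * (D' * (2 * t + 1) + t) + 4 := by rw [hD']; ring
      rw [e3]
      generalize D' * (2 * t + 1) = v
      have r : (4 * w + 1 + (8 * (v + t) + 4)) % 8 = 5 := by omega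
      have r0 : ¬ (4 * w + 1 + (8 * (v + t) + 4)) % 2 = 0 := by omega
      have h16 : ¬ 3 * A % 16 = 4 := by omega
      rw [if_neg r0, if_neg h16, r]
      norm_num
  rw [c2_mul] at h1
  rcases c2_pm (3 * A) hy with h2 | h2 <;> rcases c2_pm (3 * A) hz with h3 | h3 <;>
    rw [h2, h3] at h1 ⊢ <;> norm_num at h1 <;> norm_num

/-- the weight at `2` of a factorization -/
def k2 (A : ℕ) (t : ℤ × ℤ × ℤ × ℤ) : ℤ :=
  if (2 : ℤ) ∣ t.1 * t.2.1 then c2 (3 * A) (t.2.2.1 * t.2.2.2) else c2 (3 * A) (t.1 * t.2.1)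

/-- the odd part of the weight -/
def go (A : ℕ) (q : ℤ × ℤ × ℤ) : ℤ := ∏ p ∈ A.primeFactors.erase 2, gen p q

theorem gnE_fo {A : ℕ} (h2 : 2 ∣ A) (t : ℤ × ℤ × ℤ × ℤ) : gnE A (fo t) = k2 A t * go A (fo t) := by
  unfold gnE k2 go
  rw [if_pos h2]
  rfl

theorem go_congr {A : ℕ} {q q' : ℤ × ℤ × ℤ} (h1 : ∀ p : ℕ, p.Prime → p ≠ 2 → p ∣ A →
    gen p q = gen p q') : go A q = go A q' := by
  unfold go
  refine Finset.prod_congr rfl fun p hp => ?_
  rw [Finset.mem_erase] at hp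
  exact h1 p (Nat.prime_of_mem_primeFactors hp.2) hp.1 (Nat.dvd_of_mem_primeFactors hp.2)

theorem go_f1 {A : ℕ} (t : ℤ × ℤ × ℤ × ℤ) : go A (fo (f1 t)) = go A (fo t) := by
  refine go_congr fun p hp hp2 hpA => ?_
  have hc := cop2 hp hp2
  have e : 2 * t.1 * (2 * t.2.1) = 2 ^ 2 * (t.1 * t.2.1) := by ring
  refine gen_four hp hp2 ?_ ?_ ?_ _ _
  · show (p : ℤ) ∣ 2 * t.1 * (2 * t.2.1) ↔ _
    rw [e]
    exact ⟨fun h => (IsCoprime.pow_right (n := 2) hc.symm).dvd_of_dvd_mul_left h,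
      fun h => h.mul_left _⟩
  · intro _
    show jacobiSym (2 * t.1 * (2 * t.2.1)) p = _
    rw [e, jac_sq_mul hc]
  · intro _
    rfl

theorem go_f2 {A : ℕ} (t : ℤ × ℤ × ℤ × ℤ) : go A (fo (f2 t)) = go A (fo t) := by
  refine go_congr fun p hp hp2 hpA => ?_
  have hc := cop2 hp hp2
  have e : 2 * t.2.2.1 * (2 * t.2.2.2) = 2 ^ 2 * (t.2.2.1 * t.2.2.2) := by ring
  refine gen_four hp hp2 Iff.rfl (fun _ => rfl) ?_ _ _
  intro _
  show jacobiSym (2 * t.2.2.1 * (2 * t.2.2.2)) p = _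
  rw [e, jac_sq_mul hc]

/-- the value of the form at `(k, j)` modulo a prime dividing the first coefficient -/
theorem pdvd {p : ℕ} (hp : p.Prime) {a a' c c' d : ℤ} (hd : a * c' - a' * c = d) (hpd : (p : ℤ) ∣ d)
    (h : (p : ℤ) ∣ a * a') : (p : ℤ) ∣ a * c' ∧ (p : ℤ) ∣ a' * c := by
  have hpP : Prime (p : ℤ) := Nat.prime_iff_prime_int.1 hp
  rw [← hd] at hpd
  rcases hpP.dvd_or_dvd h with h4 | h4
  · have h5 : (p : ℤ) ∣ a' * c := by
      have := dvd_sub (h4.mul_right c') hpd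
      rwa [sub_sub_cancel] at this
    exact ⟨h4.mul_right _, h5⟩
  · have h5 : (p : ℤ) ∣ a * c' := by
      have := dvd_add hpd (h4.mul_right c)
      rwa [sub_add_cancel] at this
    exact ⟨h5, h4.mul_right _⟩

theorem go_f3 {A : ℕ} {t : ℤ × ℤ × ℤ × ℤ} {d : ℤ} (hd : t.1 * t.2.2.2 - t.2.1 * t.2.2.1 = d)
    (hAd : ∀ p : ℕ, p.Prime → p ≠ 2 → p ∣ A → (p : ℤ) ∣ d) : go A (fo (f3 t)) = go A (fo t) := by
  refine go_congr fun p hp hp2 hpA => ?_
  have hc := cop2 hp hp2
  refine gen_four hp hp2 Iff.rfl (fun _ => rfl) ?_ _ _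
  intro h
  have h' : (p : ℤ) ∣ t.1 * t.2.1 := h
  obtain ⟨k1, k2⟩ := pdvd hp hd (hAd p hp hp2 hpA) h'
  show jacobiSym ((t.1 + 2 * t.2.2.1) * (t.2.1 + 2 * t.2.2.2)) p = jacobiSym (t.2.2.1 * t.2.2.2) p
  rw [← jac_sq_mul (y := t.2.2.1 * t.2.2.2) hc]
  refine jac_congr ?_
  have e : (t.1 + 2 * t.2.2.1) * (t.2.1 + 2 * t.2.2.2) - 2 ^ 2 * (t.2.2.1 * t.2.2.2) =
      t.1 * t.2.1 + 2 * (t.1 * t.2.2.2 + t.2.1 * t.2.2.1) := by ring
  rw [e]
  exact dvd_add h' ((dvd_add k1 k2).mul_left 2)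

/-- translation -/
def tr (k : ℤ) (t : ℤ × ℤ × ℤ × ℤ) : ℤ × ℤ × ℤ × ℤ :=
  (t.1, t.2.1, t.2.2.1 + k * t.1, t.2.2.2 + k * t.2.1)

theorem go_tr {A : ℕ} (k : ℤ) {t : ℤ × ℤ × ℤ × ℤ} {d : ℤ} (hd : t.1 * t.2.2.2 - t.2.1 * t.2.2.1 = d)
    (hAd : ∀ p : ℕ, p.Prime → p ≠ 2 → p ∣ A → (p : ℤ) ∣ d) : go A (fo (tr k t)) = go A (fo t) := by
  refine go_congr fun p hp hp2 hpA => ?_
  refine gen_four hp hp2 Iff.rfl (fun _ => rfl) ?_ _ _
  intro h
  have h' : (p : ℤ) ∣ t.1 * t.2.1 := h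
  obtain ⟨k1, k2⟩ := pdvd hp hd (hAd p hp hp2 hpA) h'
  show jacobiSym ((t.2.2.1 + k * t.1) * (t.2.2.2 + k * t.2.1)) p = jacobiSym (t.2.2.1 * t.2.2.2) p
  refine jac_congr ?_
  have e : (t.2.2.1 + k * t.1) * (t.2.2.2 + k * t.2.1) - t.2.2.1 * t.2.2.2 =
      k ^ 2 * (t.1 * t.2.1) + k * (t.1 * t.2.2.2 + t.2.1 * t.2.2.1) := by ring
  rw [e]
  exact dvd_add (h'.mul_left _) ((dvd_add k1 k2).mul_left k)

theorem par_mul {x y : ℤ} : (x * y) % 2 = 1 ↔ x % 2 = 1 ∧ y % 2 = 1 := by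
  constructor
  · intro h
    have h1 : x % 2 = 0 ∨ x % 2 = 1 := by omega
    have h2 : y % 2 = 0 ∨ y % 2 = 1 := by omega
    rw [Int.mul_emod] at h
    rcases h1 with h1 | h1 <;> rcases h2 with h2 | h2 <;> rw [h1, h2] at h <;> norm_num at h
    exact ⟨h1, h2⟩
  · rintro ⟨h1, h2⟩
    rw [Int.mul_emod, h1, h2]
    norm_num

theorem pe (x y : ℤ) : (x * y) % 2 = 1 ∧ x % 2 = 1 ∧ y % 2 = 1 ∨
    (x * y) % 2 = 0 ∧ (x % 2 = 0 ∨ y % 2 = 0) := by
  by_cases h : (x * y) % 2 = 1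
  · exact Or.inl ⟨h, par_mul.1 h⟩
  · refine Or.inr ⟨by omega, ?_⟩
    by_contra h1
    push Not at h1
    exact h (par_mul.2 ⟨by omega, by omega⟩)

/-- the weight at `2` under translations -/
theorem k2_tr {A : ℕ} (hA : Ae A) (k : ℤ) {a a' c c' : ℤ} {e : ℤ}
    (hd : a * c' - a' * c = A * e) : k2 A (tr k (a, a', c, c')) = k2 A (a, a', c, c') := by
  have hA2 : (A : ℤ) % 2 = 0 := by unfold Ae at hA; omega
  have hdet : (a * c' - a' * c) % 2 = 0 := by
    rw [hd, Int.mul_emod, hA2]; norm_num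
  unfold k2 tr
  simp only
  by_cases h : (2 : ℤ) ∣ a * a'
  · rw [if_pos h, if_pos h]
    by_cases hy : (c * c') % 2 = 1
    · obtain ⟨hc, hc'⟩ := par_mul.1 hy
      have haa : a % 2 = 0 ∧ a' % 2 = 0 := by
        have p1 := pe a a'
        have p2 := pe a c'
        have p3 := pe a' c
        omega
      have hz : ((c + k * a) * (c' + k * a')) % 2 = 1 := by
        rw [par_mul]
        constructor
        · rw [Int.add_emod, Int.mul_emod, haa.1, hc]; norm_num
        · rw [Int.add_emod, Int.mul_emod, haa.2, hc']; norm_num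
      refine c2_eq_of hA (s := c * (c' + k * a')) (k := e * k) ?_ hz hy ?_
      · rw [par_mul]
        refine ⟨hc, ?_⟩
        rw [Int.add_emod, Int.mul_emod, haa.2, hc']; norm_num
      · linear_combination (c * (c' + k * a') * k) * hd
    · have hy0 : (c * c') % 2 = 0 := by omega
      have hz : ((c + k * a) * (c' + k * a')) % 2 = 0 := by
        by_contra hz
        have hz1 : ((c + k * a) * (c' + k * a')) % 2 = 1 := by omega
        obtain ⟨h1, h2⟩ := par_mul.1 hz1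
        have p1 := pe a a'
        have p2 := pe a c'
        have p3 := pe a' c
        have p4 := pe c c'
        have p5 := pe k a
        have p6 := pe k a'
        omega
      rw [c2_even _ hz, c2_even _ hy0]
  · rw [if_neg h, if_neg h]

theorem gnE_tr {A : ℕ} (hA : Ae A) (k : ℤ) {t : ℤ × ℤ × ℤ × ℤ} {e : ℤ}
    (hd : t.1 * t.2.2.2 - t.2.1 * t.2.2.1 = A * e) : gnE A (fo (tr k t)) = gnE A (fo t) := by
  have h2 : 2 ∣ A := by unfold Ae at hA; omega
  obtain ⟨a, a', c, c'⟩ := t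
  rw [gnE_fo h2, gnE_fo h2, k2_tr hA k hd, go_tr k hd fun p _ _ hp => ?_]
  exact Dvd.dvd.mul_right (by exact_mod_cast hp) e

/-! ### the weight and the Hecke operator at `2` -/

open Classical in
/-- the identity for one matrix of determinant `2 A` -/
theorem two_pt {A : ℕ} (hA : Ae A) {a a' c c' : ℤ} (hd : a * c' - a' * c = 2 * A) :
    (if (2 : ℤ) ∣ a ∧ (2 : ℤ) ∣ a' then gnE A (fo (a / 2, a' / 2, c, c')) else 0) +
    (if (2 : ℤ) ∣ c ∧ (2 : ℤ) ∣ c' then gnE A (fo (a, a', c / 2, c' / 2)) else 0) +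
    (if (2 : ℤ) ∣ c - a ∧ (2 : ℤ) ∣ c' - a' then gnE A (fo (a, a', (c - a) / 2, (c' - a') / 2))
      else 0) = gnE A (fo (a, a', c, c')) := by
  have hA2 : 2 ∣ A := by unfold Ae at hA; omega
  have hAz : (A : ℤ) % 4 = 0 := by unfold Ae at hA; omega
  obtain ⟨D, hD⟩ : ∃ D : ℤ, (A : ℤ) = 2 * D := ⟨(A : ℤ) / 2, by omega⟩
  have hD2 : D % 2 = 0 := by omega
  have hpA : ∀ p : ℕ, p.Prime → p ≠ 2 → p ∣ A → (p : ℤ) ∣ (A : ℤ) := fun p _ _ h => by
    exact_mod_cast h
  have hpD : ∀ p : ℕ, p.Prime → p ≠ 2 → p ∣ A → (p : ℤ) ∣ D := fun p hp hp2 h => by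
    have h1 : (p : ℤ) ∣ 2 * D := by rw [← hD]; exact_mod_cast h
    exact (cop2 hp hp2).symm.dvd_of_dvd_mul_left h1
  by_cases ha : (2 : ℤ) ∣ a ∧ (2 : ℤ) ∣ a'
  · obtain ⟨⟨α, rfl⟩, ⟨α', rfl⟩⟩ := ha
    have e1 : 2 * α / 2 = α := by omega
    have e2 : 2 * α' / 2 = α' := by omega
    rw [if_pos ⟨⟨α, rfl⟩, ⟨α', rfl⟩⟩, e1, e2]
    have hd1 : α * c' - α' * c = A := by linarith
    have hf1 : fo (2 * α, 2 * α', c, c') = fo (f1 (α, α', c, c')) := rfl
    by_cases hc : (2 : ℤ) ∣ c ∧ (2 : ℤ) ∣ c'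
    · obtain ⟨⟨γ, rfl⟩, ⟨γ', rfl⟩⟩ := hc
      have e3 : 2 * γ / 2 = γ := by omega
      have e4 : 2 * γ' / 2 = γ' := by omega
      have e5 : (2 * γ - 2 * α) / 2 = γ - α := by omega
      have e6 : (2 * γ' - 2 * α') / 2 = γ' - α' := by omega
      rw [if_pos ⟨⟨γ, rfl⟩, ⟨γ', rfl⟩⟩, if_pos ⟨⟨γ - α, by ring⟩, ⟨γ' - α', by ring⟩⟩, e3, e4, e5, e6]
      have hdD : α * γ' - α' * γ = D := by linarith
      rw [gnE_fo hA2, gnE_fo hA2, gnE_fo hA2, gnE_fo hA2]
      have g1 : go A (fo (α, α', 2 * γ, 2 * γ')) = go A (fo (α, α', γ, γ')) :=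
        go_f2 (α, α', γ, γ')
      have g2 : go A (fo (2 * α, 2 * α', γ, γ')) = go A (fo (α, α', γ, γ')) :=
        go_f1 (α, α', γ, γ')
      have g3 : go A (fo (2 * α, 2 * α', γ - α, γ' - α')) = go A (fo (α, α', γ, γ')) := by
        have h1 : go A (fo (2 * α, 2 * α', γ - α, γ' - α')) =
          go A (fo (α, α', γ - α, γ' - α')) := go_f1 (α, α', γ - α, γ' - α')
        rw [h1]
        have h2 := go_tr (A := A) (-1) (t := (α, α', γ, γ')) (d := D) hdD hpD
        have h3 : tr (-1) (α, α', γ, γ') = (α, α', γ - α, γ' - α') := by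
          unfold tr
          simp only [Prod.mk.injEq, true_and]
          constructor <;> ring
        rw [h3] at h2
        exact h2
      rw [g1, g2, g3]
      have k4 : k2 A (2 * α, 2 * α', 2 * γ, 2 * γ') = 0 := by
        unfold k2
        simp only
        rw [if_pos ⟨2 * (α * α'), by ring⟩]
        exact c2_even _ (by
          have : 2 * γ * (2 * γ') = 2 * (2 * (γ * γ')) := by ring
          omega)
      have k1 : k2 A (α, α', 2 * γ, 2 * γ') = c2 (3 * A) (α * α') := by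
        unfold k2
        simp only
        by_cases h : (2 : ℤ) ∣ α * α'
        · rw [if_pos h, c2_even _ (Int.emod_eq_zero_of_dvd h)]
          exact c2_even _ (by
            have : 2 * γ * (2 * γ') = 2 * (2 * (γ * γ')) := by ring
            omega)
        · rw [if_neg h]
      have k2' : k2 A (2 * α, 2 * α', γ, γ') = c2 (3 * A) (γ * γ') := by
        unfold k2
        simp only
        rw [if_pos ⟨2 * (α * α'), by ring⟩]
      have k3 : k2 A (2 * α, 2 * α', γ - α, γ' - α') = c2 (3 * A) ((γ - α) * (γ' - α')) := by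
        unfold k2
        simp only
        rw [if_pos ⟨2 * (α * α'), by ring⟩]
      rw [k1, k2', k3, k4, zero_mul, ← add_mul, ← add_mul]
      have key : c2 (3 * A) (α * α') + c2 (3 * A) (γ * γ') + c2 (3 * A) ((γ - α) * (γ' - α')) = 0 := by
        have hdet : (α * γ' - α' * γ) % 2 = 0 := by rw [hdD]; exact hD2
        by_cases haa : (α * α') % 2 = 1
        · obtain ⟨h1, h2⟩ := par_mul.1 haa
          by_cases hgg : (γ * γ') % 2 = 1
          · obtain ⟨h3, h4⟩ := par_mul.1 hgg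
            have h5 : ((γ - α) * (γ' - α')) % 2 = 0 := by
              rw [Int.mul_emod, show (γ - α) % 2 = 0 by omega]; norm_num
            rw [c2_even _ h5, add_zero]
            refine c2_opp hA hD (s := α' * γ) (par_mul.2 ⟨h2, h3⟩) haa hgg ?_
            linear_combination (α' * γ) * hdD
          · have h34 : γ % 2 = 0 ∧ γ' % 2 = 0 := by
              have p1 := pe γ γ'
              have p2 := pe α γ'
              have p3 := pe α' γ
              omega
            have h5 : (γ * γ') % 2 = 0 := by omega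
            rw [c2_even _ h5, add_zero]
            refine c2_opp hA hD (s := α' * γ - α * α') ?_ haa ?_ ?_
            · rw [Int.sub_emod, haa, Int.mul_emod, h34.1]; norm_num
            · rw [par_mul]; omega
            · linear_combination (α' * γ - α * α') * hdD
        · have haa0 : (α * α') % 2 = 0 := by omega
          rw [c2_even _ haa0, zero_add]
          by_cases hgg : (γ * γ') % 2 = 1
          · obtain ⟨h3, h4⟩ := par_mul.1 hgg
            have h12 : α % 2 = 0 ∧ α' % 2 = 0 := by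
              have p1 := pe α α'
              have p2 := pe α γ'
              have p3 := pe α' γ
              omega
            refine c2_opp hA hD (s := γ * γ' - α * γ') ?_ hgg ?_ ?_
            · rw [Int.sub_emod, hgg, Int.mul_emod, h12.1]; norm_num
            · rw [par_mul]; omega
            · linear_combination (γ * γ' - α * γ') * hdD
          · have hgg0 : (γ * γ') % 2 = 0 := by omega
            have h5 : ((γ - α) * (γ' - α')) % 2 = 0 := by
              by_contra h6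
              have h7 : ((γ - α) * (γ' - α')) % 2 = 1 := by omega
              obtain ⟨h8, h9⟩ := par_mul.1 h7
              have p1 := pe α α'
              have p2 := pe α γ'
              have p3 := pe α' γ
              have p4 := pe γ γ'
              omega
            rw [c2_even _ hgg0, c2_even _ h5, add_zero]
      rw [key, zero_mul]
    · have hc3 : ¬ ((2 : ℤ) ∣ c - 2 * α ∧ (2 : ℤ) ∣ c' - 2 * α') := by
        rintro ⟨h1, h2⟩
        exact hc ⟨by omega, by omega⟩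
      rw [if_neg hc, if_neg hc3, add_zero, add_zero, hf1, gnE_fo hA2, gnE_fo hA2, go_f1]
      congr 1
      unfold k2 f1
      simp only
      have h2aa : (2 : ℤ) ∣ 2 * α * (2 * α') := ⟨2 * (α * α'), by ring⟩
      rw [if_pos h2aa]
      by_cases h : (2 : ℤ) ∣ α * α'
      · rw [if_pos h]
      · rw [if_neg h]
        have haa : (α * α') % 2 = 1 := by omega
        obtain ⟨h1, h2⟩ := par_mul.1 haa
        have h34 : c % 2 = 1 ∧ c' % 2 = 1 := by
          have hdet : (α * c' - α' * c) % 2 = 0 := by rw [hd1]; omega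
          have p2 := pe α c'
          have p3 := pe α' c
          have p4 : ¬ (c % 2 = 0 ∧ c' % 2 = 0) := fun h => hc ⟨by omega, by omega⟩
          omega
        refine c2_eq_of hA (s := α' * c) (k := 1) (par_mul.2 ⟨h2, h34.1⟩) haa
          (par_mul.2 ⟨h34.1, h34.2⟩) ?_
        linear_combination (α' * c) * hd1
  · rw [if_neg ha, zero_add]
    by_cases hc : (2 : ℤ) ∣ c ∧ (2 : ℤ) ∣ c'
    · have hc3 : ¬ ((2 : ℤ) ∣ c - a ∧ (2 : ℤ) ∣ c' - a') := by
        rintro ⟨h1, h2⟩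
        exact ha ⟨by omega, by omega⟩
      rw [if_pos hc, if_neg hc3, add_zero]
      obtain ⟨⟨γ, rfl⟩, ⟨γ', rfl⟩⟩ := hc
      have e3 : 2 * γ / 2 = γ := by omega
      have e4 : 2 * γ' / 2 = γ' := by omega
      rw [e3, e4]
      have hd1 : a * γ' - a' * γ = A := by linarith
      have hf2 : fo (a, a', 2 * γ, 2 * γ') = fo (f2 (a, a', γ, γ')) := rfl
      rw [hf2, gnE_fo hA2, gnE_fo hA2, go_f2]
      congr 1
      unfold k2 f2
      simp only
      by_cases h : (2 : ℤ) ∣ a * a'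
      · rw [if_pos h, if_pos h]
        have h5 : (2 * γ * (2 * γ')) % 2 = 0 := by
          have : 2 * γ * (2 * γ') = 2 * (2 * (γ * γ')) := by ring
          omega
        have h6 : (γ * γ') % 2 = 0 := by
          by_contra h7
          have h8 : (γ * γ') % 2 = 1 := by omega
          obtain ⟨h3, h4⟩ := par_mul.1 h8
          have hdet : (a * γ' - a' * γ) % 2 = 0 := by rw [hd1]; omega
          have h0 : (a * a') % 2 = 0 := Int.emod_eq_zero_of_dvd h
          have p1 := pe a a'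
          have p2 := pe a γ'
          have p3 := pe a' γ
          exact ha ⟨by omega, by omega⟩
        rw [c2_even _ h5, c2_even _ h6]
      · rw [if_neg h, if_neg h]
    · rw [if_neg hc, zero_add]
      have hc3 : (2 : ℤ) ∣ c - a ∧ (2 : ℤ) ∣ c' - a' := by
        have hdet : (a * c' - a' * c) % 2 = 0 := by rw [hd]; omega
        have p2 := pe a c'
        have p3 := pe a' c
        have q1 : ¬ (a % 2 = 0 ∧ a' % 2 = 0) := fun h => ha ⟨by omega, by omega⟩
        have q2 : ¬ (c % 2 = 0 ∧ c' % 2 = 0) := fun h => hc ⟨by omega, by omega⟩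
        omega
      rw [if_pos hc3]
      obtain ⟨⟨γ, hγ⟩, ⟨γ', hγ'⟩⟩ := hc3
      have ec : c = a + 2 * γ := by linarith
      have ec' : c' = a' + 2 * γ' := by linarith
      subst ec ec'
      have e3 : (a + 2 * γ - a) / 2 = γ := by omega
      have e4 : (a' + 2 * γ' - a') / 2 = γ' := by omega
      rw [e3, e4]
      have hd1 : a * γ' - a' * γ = A := by linarith
      have hf3 : fo (a, a', a + 2 * γ, a' + 2 * γ') = fo (f3 (a, a', γ, γ')) := rfl
      rw [hf3, gnE_fo hA2, gnE_fo hA2, go_f3 (d := A) hd1 hpA]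
      congr 1
      unfold k2 f3
      simp only
      by_cases h : (2 : ℤ) ∣ a * a'
      · rw [if_pos h, if_pos h]
        have h0 : (a * a') % 2 = 0 := Int.emod_eq_zero_of_dvd h
        have h5 : ((a + 2 * γ) * (a' + 2 * γ')) % 2 = 0 := by
          have e5 : (a + 2 * γ) * (a' + 2 * γ') = a * a' + 2 * (a * γ' + γ * a' + 2 * (γ * γ')) := by
            ring
          omega
        have h6 : (γ * γ') % 2 = 0 := by
          by_contra h7
          have h8 : (γ * γ') % 2 = 1 := by omega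
          obtain ⟨h3, h4⟩ := par_mul.1 h8
          have hdet : (a * γ' - a' * γ) % 2 = 0 := by rw [hd1]; omega
          have p1 := pe a a'
          have p2 := pe a γ'
          have p3 := pe a' γ
          exact ha ⟨by omega, by omega⟩
        rw [c2_even _ h5, c2_even _ h6]
      · rw [if_neg h, if_neg h]

/-! ### the counting functions for even `A` -/

/-- the weighted count of the factorizations -/
def GQ (d : ℤ) (A : ℕ) (x n : ℤ) : ℤ := ∑ᶠ t ∈ FF d x n, gnE A (fo t)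

theorem cop_of_gnE {A : ℕ} {a a' c c' : ℤ} (hd : a * c' - a' * c = A)
    (h : gnE A (fo (a, a', c, c')) ≠ 0) (hA : A ≠ 0) : IsCoprime a c := by
  rw [Int.isCoprime_iff_gcd_eq_one]
  by_contra hg
  obtain ⟨p, hp, hpg⟩ := Nat.exists_prime_and_dvd hg
  have h1 : (p : ℤ) ∣ a := (by exact_mod_cast hpg : (p : ℤ) ∣ (Int.gcd a c : ℤ)).trans
    (Int.gcd_dvd_left ..)
  have h2 : (p : ℤ) ∣ c := (by exact_mod_cast hpg : (p : ℤ) ∣ (Int.gcd a c : ℤ)).trans
    (Int.gcd_dvd_right ..)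
  have h3 : (p : ℤ) ∣ (A : ℤ) := by
    rw [← hd]
    exact dvd_sub (h1.mul_right _) (h2.mul_left _)
  have h4 : p ∈ A.primeFactors := Nat.mem_primeFactors.2 ⟨hp, by exact_mod_cast h3, hA⟩
  apply h
  unfold gnE
  by_cases hp2 : p = 2
  · subst hp2
    have e1 : (2 : ℤ) ∣ (fo (a, a', c, c')).1 := h1.mul_right _
    have e2 : (fo (a, a', c, c')).2.2 % 2 = 0 := Int.emod_eq_zero_of_dvd (h2.mul_right _)
    have e3 : 2 ∣ A := by exact_mod_cast h3
    rw [if_pos e3, if_pos e1, c2_even _ e2, zero_mul]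
  · rw [Finset.prod_eq_zero (Finset.mem_erase.2 ⟨hp2, h4⟩)
      (gen_dvd hp (h1.mul_right _) (h2.mul_right _)), mul_zero]

/-- the forms of orientation `+` and the factorizations -/
theorem bijPE {A : ℕ} (hA0 : 0 < A) (hA17 : ¬ (17 : ℤ) ∣ A) (x n : ℤ) (hn : 0 < n) :
    Set.BijOn fo (FF A x n ∩ Function.support fun t => gnE A (fo t))
    (SP A x n ∩ Function.support fun q => gnE A q) := by
  have hA0' : (0 : ℤ) < A := by exact_mod_cast hA0
  refine ⟨?_, ?_, ?_⟩
  · rintro ⟨a, a', c, c'⟩ ⟨⟨pa, pa', h5, hdt, pX, pY⟩, hs⟩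
    simp only at pa pa' h5 hdt pX pY
    have hform : a * a' * x ^ 2 + (a * c' + a' * c) * x * n + c * c' * n ^ 2 < 0 := by
      have e : a * a' * x ^ 2 + (a * c' + a' * c) * x * n + c * c' * n ^ 2 =
        -(-(a * x + c * n) * (a' * x + c' * n)) := by ring
      rw [e]
      have := mul_pos pX pY
      linarith
    refine ⟨⟨⟨⟨?_, Dvd.dvd.mul_left h5 a⟩, mul_pos pa pa', hform⟩, ?_⟩, hs⟩
    · show (a * c' + a' * c) ^ 2 - 4 * (a * a') * (c * c') = (A : ℤ) ^ 2
      linear_combination (a * c' - a' * c + A) * hdt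
    · show (17 : ℤ) ∣ (a * c' + a' * c) - A
      have e : (a * c' + a' * c) - (A : ℤ) = a' * (2 * c) := by linear_combination hdt
      rw [e]
      exact h5.mul_right _
  · rintro ⟨a, a', c, c'⟩ ⟨⟨pa, pa', h5, hdt, pX, pY⟩, hs⟩ ⟨a1, a1', c1, c1'⟩
      ⟨⟨pa1, pa1', h51, hdt1, pX1, pY1⟩, hs1⟩ e
    simp only at pa pa' h5 hdt pX pY pa1 pa1' h51 hdt1 pX1 pY1
    have hc : IsCoprime a c := cop_of_gnE hdt hs hA0.ne'
    have hc1 : IsCoprime a1 c1 := cop_of_gnE hdt1 hs1 hA0.ne'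
    simp only [fo, Prod.mk.injEq] at e
    obtain ⟨e1, e2, e3⟩ := e
    obtain ⟨k1, k2, k3, k4⟩ := inj_gen pa' pa1' hc hc1 hdt hdt1 pa e1 e2
    rw [k1, k2, k3, k4]
  · rintro ⟨a0, B, C⟩ ⟨⟨⟨⟨hd, h17⟩, ha0, hN⟩, hor⟩, hs⟩
    simp only at hd h17 ha0 hN hor
    have hpar : (2 : ℤ) ∣ B - A := by
      have h1 : (2 : ℤ) ∣ (B - A) * (B + A) := ⟨2 * (a0 * C), by linear_combination hd⟩
      rcases Int.prime_two.dvd_or_dvd h1 with h2 | h2
      · exact h2
      · have e : B - A = B + A - 2 * A := by ring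
        rw [e]
        exact dvd_sub h2 ⟨A, rfl⟩
    obtain ⟨γ, hγ⟩ := hpar
    have hB : B = 2 * γ + A := by linarith
    subst hB
    have hAC : a0 * C = γ * (γ + A) := by linarith
    obtain ⟨a, a', c, c', pa, pa', ha, hc, hc', hC, hcop⟩ := exists_fac ha0 hAC
    have hdt : a * c' - a' * c = A := by rw [← hc', ← hc]; ring
    have h17γ : (17 : ℤ) ∣ γ := by
      have e : 2 * γ + (A : ℤ) - A = 2 * γ := by ring
      rw [e] at hor
      exact (Int.Prime.dvd_mul' (by norm_num : Nat.Prime 17) hor).resolve_left (by norm_num)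
    have n5 : ¬ (17 : ℤ) ∣ a := by
      intro h
      apply hA17
      have h1 : (17 : ℤ) ∣ γ + A := by rw [hc']; exact Dvd.dvd.mul_right h _
      exact (Int.dvd_add_right h17γ).1 h1
    have d5 : (17 : ℤ) ∣ a' := by
      have : (17 : ℤ) ∣ a * a' := by rw [← ha]; exact h17
      exact (Int.Prime.dvd_mul' (by norm_num : Nat.Prime 17) this).resolve_left n5
    have hs' : 0 < -(a * x + c * n) ∧ 0 < a' * x + c' * n := by
      refine sign_of pa pa' hA0' hn hdt ?_
      have e : a * a' * x ^ 2 + (a * c' + a' * c) * x * n + c * c' * n ^ 2 =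
        a0 * x ^ 2 + (2 * γ + A) * x * n + C * n ^ 2 := by
        rw [ha, hC, ← hc', ← hc]
        ring
      rw [e]
      exact hN
    have hfo : fo (a, a', c, c') = (a0, 2 * γ + A, C) := by
      simp only [fo, Prod.mk.injEq]
      exact ⟨ha.symm, by rw [← hc', ← hc]; ring, hC.symm⟩
    refine ⟨(a, a', c, c'), ⟨⟨pa, pa', d5, hdt, hs'.1, hs'.2⟩, ?_⟩, hfo⟩
    rw [Function.mem_support, hfo]
    exact hs

theorem GQ_plus {A : ℕ} (hA0 : 0 < A) (hA17 : ¬ (17 : ℤ) ∣ A) (x n : ℤ) (hn : 0 < n) :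
    ∑ᶠ q ∈ SP A x n, gnE A q = GQ A A x n := by
  unfold GQ
  rw [← finsum_mem_inter_support, ← finsum_mem_inter_support (fun t => gnE A (fo t)) (FF A x n)]
  exact (finsum_mem_eq_of_bijOn fo (bijPE hA0 hA17 x n hn) fun t _ => rfl).symm

open Classical in
/-- the counting function by orientation -/
theorem FgE_eq {A : ℕ} (hA0 : 0 < A) (hA17 : ¬ (17 : ℤ) ∣ A) (x n : ℤ) (hn : 0 < n) :
    FgE A x n = GQ A A x n - GQ A A (-x) n := by
  have hf := SA_fin A x n hn
  have fP : (SP A x n).Finite := hf.subset fun _ h => h.1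
  have fM : (SM A x n).Finite := hf.subset fun _ h => h.1
  have e1 : FgE A x n = ∑ᶠ q ∈ SA A x n, (if (17 : ℤ) ∣ q.2.1 - A then 1 else -1) * gnE A q := by
    unfold FgE
    refine finsum_congr fun q => ?_
    rw [finsum_eq_if]
    by_cases h : q ∈ SA A x n
    · rw [if_pos h]
      exact if_pos h
    · rw [if_neg h]
      exact if_neg h
  rw [e1, SA_split, finsum_mem_union (disj hA17 x n) fP fM]
  have e2 : ∑ᶠ q ∈ SP A x n, (if (17 : ℤ) ∣ q.2.1 - A then 1 else -1) * gnE A q = GQ A A x n := by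
    rw [← GQ_plus hA0 hA17 x n hn]
    refine finsum_mem_congr rfl fun q hq => ?_
    rw [if_pos hq.2, one_mul]
  have e3 : ∑ᶠ q ∈ SM A x n, (if (17 : ℤ) ∣ q.2.1 - A then 1 else -1) * gnE A q =
      -GQ A A (-x) n := by
    rw [← GQ_plus hA0 hA17 (-x) n hn, ← finsum_mem_eq_of_bijOn _ (flip_bij A x n)
      (f := fun q => gnE A q) (fun q _ => rfl), ← finsum_mem_neg_distrib _ fM]
    refine finsum_mem_congr rfl fun q hq => ?_
    have h1 : ¬ (17 : ℤ) ∣ q.2.1 - A := fun h =>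
      Set.disjoint_left.1 (disj hA17 x n) (⟨hq.1, h⟩ : q ∈ SP A x n) hq
    rw [if_neg h1]
    ring
  rw [e2, e3]
  ring

theorem bij_tr (d x n k : ℤ) : Set.BijOn (tr k) (FF d (x + n * k) n) (FF d x n) := by
  refine ⟨?_, ?_, ?_⟩
  · rintro ⟨a, a', c, c'⟩ ⟨pa, pa', h5, hdt, pX, pY⟩
    simp only at pa pa' h5 hdt pX pY
    refine ⟨pa, pa', h5, ?_, ?_, ?_⟩
    · show a * (c' + k * a') - a' * (c + k * a) = d
      linear_combination hdt
    · show 0 < -(a * x + (c + k * a) * n)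
      have e : -(a * x + (c + k * a) * n) = -(a * (x + n * k) + c * n) := by ring
      rw [e]; exact pX
    · show 0 < a' * x + (c' + k * a') * n
      have e : a' * x + (c' + k * a') * n = a' * (x + n * k) + c' * n := by ring
      rw [e]; exact pY
  · rintro ⟨a, a', c, c'⟩ - ⟨a1, a1', c1, c1'⟩ - h
    simp only [tr, Prod.mk.injEq] at h
    obtain ⟨rfl, rfl, h3, h4⟩ := h
    simp only [Prod.mk.injEq, true_and]
    constructor <;> linarith
  · rintro ⟨a, a', c, c'⟩ ⟨pa, pa', h5, hdt, pX, pY⟩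
    simp only at pa pa' h5 hdt pX pY
    refine ⟨(a, a', c - k * a, c' - k * a'), ⟨pa, pa', h5, ?_, ?_, ?_⟩, ?_⟩
    · show a * (c' - k * a') - a' * (c - k * a) = d
      linear_combination hdt
    · show 0 < -(a * (x + n * k) + (c - k * a) * n)
      have e : -(a * (x + n * k) + (c - k * a) * n) = -(a * x + c * n) := by ring
      rw [e]; exact pX
    · show 0 < a' * (x + n * k) + (c' - k * a') * n
      have e : a' * (x + n * k) + (c' - k * a') * n = a' * x + c' * n := by ring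
      rw [e]; exact pY
    · simp only [tr, Prod.mk.injEq, true_and]
      constructor <;> ring

theorem GQ_shift {A : ℕ} (hA : Ae A) {d e : ℤ} (hd : d = A * e) (x n k : ℤ) :
    GQ d A (x + n * k) n = GQ d A x n := by
  unfold GQ
  refine finsum_mem_eq_of_bijOn (tr k) (bij_tr d x n k) fun t ht => ?_
  exact (gnE_tr hA k (e := e) (by rw [ht.2.2.2.1, hd])).symm

theorem FF_fin' (n : ℕ) (d : ℕ) (hn : 0 < n) (hd : 0 < d) (x : ℤ) : (FF d x n).Finite :=
  FF_fin n d hn hd x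

open Classical in
/-- the Hecke operator at `2` -/
theorem GQ_two {A : ℕ} (hA : Ae A) (x : ℤ) {n : ℕ} (hn : 0 < n) :
    GQ A A (2 * x) n + GQ A A x (2 * n) + GQ A A (x + n) (2 * n) = GQ (2 * A) A x n := by
  have hA0 : 0 < A := by unfold Ae at hA; omega
  have Fi := FF_fin n (2 * A) hn (by omega) x
  have e0 : ((2 * A : ℕ) : ℤ) = 2 * A := by push_cast; ring
  rw [e0] at Fi
  set W1 : ℤ × ℤ × ℤ × ℤ → ℤ := fun M => if (2 : ℤ) ∣ M.1 ∧ (2 : ℤ) ∣ M.2.1 then
    gnE A (fo (M.1 / 2, M.2.1 / 2, M.2.2.1, M.2.2.2)) else 0 with hW1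
  set W2 : ℤ × ℤ × ℤ × ℤ → ℤ := fun M => if (2 : ℤ) ∣ M.2.2.1 ∧ (2 : ℤ) ∣ M.2.2.2 then
    gnE A (fo (M.1, M.2.1, M.2.2.1 / 2, M.2.2.2 / 2)) else 0 with hW2
  set W3 : ℤ × ℤ × ℤ × ℤ → ℤ := fun M => if (2 : ℤ) ∣ M.2.2.1 - M.1 ∧ (2 : ℤ) ∣ M.2.2.2 - M.2.1 then
    gnE A (fo (M.1, M.2.1, (M.2.2.1 - M.1) / 2, (M.2.2.2 - M.2.1) / 2)) else 0 with hW3
  have k1 : GQ A A (2 * x) n = ∑ᶠ M ∈ FF (2 * A) x n, W1 M := by
    unfold GQ
    have h1 : ∑ᶠ t ∈ FF A (2 * x) n, gnE A (fo t) = ∑ᶠ t ∈ FF A (2 * x) n, W1 (f1 t) := by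
      refine finsum_mem_congr rfl fun t _ => ?_
      have h2 : (2 : ℤ) ∣ (f1 t).1 ∧ (2 : ℤ) ∣ (f1 t).2.1 := ⟨⟨t.1, rfl⟩, ⟨t.2.1, rfl⟩⟩
      simp only [hW1]
      rw [if_pos h2]
      have e1 : (f1 t).1 / 2 = t.1 := by show 2 * t.1 / 2 = t.1; omega
      have e2 : (f1 t).2.1 / 2 = t.2.1 := by show 2 * t.2.1 / 2 = t.2.1; omega
      rw [e1, e2]
      rfl
    rw [h1, ← finsum_mem_image f1_inj.injOn]
    apply finsum_mem_inter_support_eq
    ext M
    constructor
    · rintro ⟨h2, h3⟩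
      refine ⟨?_, h3⟩
      obtain ⟨⟨a, a', c, c'⟩, ⟨pa, pa', h5, hdt, pX, pY⟩, rfl⟩ := h2
      simp only at pa pa' h5 hdt pX pY
      refine ⟨?_, ?_, ?_, ?_, ?_, ?_⟩
      · show 0 < 2 * a
        linarith
      · show 0 < 2 * a'
        linarith
      · show (17 : ℤ) ∣ 2 * a'
        exact h5.mul_left 2
      · show 2 * a * c' - 2 * a' * c = 2 * A
        linarith
      · show 0 < -(2 * a * x + c * n)
        have k : -(a * (2 * x) + c * n) = -(2 * a * x + c * n) := by ring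
        rw [← k]; exact pX
      · show 0 < 2 * a' * x + c' * n
        have k : a' * (2 * x) + c' * n = 2 * a' * x + c' * n := by ring
        rw [← k]; exact pY
    · rintro ⟨h2, h3⟩
      refine ⟨?_, h3⟩
      have h4 : (2 : ℤ) ∣ M.1 ∧ (2 : ℤ) ∣ M.2.1 := by
        by_contra h
        exact h3 (if_neg h)
      obtain ⟨a, a', c, c'⟩ := M
      obtain ⟨pa, pa', h5, hdt, pX, pY⟩ := h2
      obtain ⟨⟨k, hk⟩, ⟨l, hl⟩⟩ := h4
      simp only at pa pa' h5 hdt pX pY hk hl
      subst hk hl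
      refine ⟨(k, l, c, c'), ⟨by show 0 < k; omega, by show 0 < l; omega, ?_, ?_, ?_, ?_⟩, rfl⟩
      · show (17 : ℤ) ∣ l
        omega
      · show k * c' - l * c = A
        have : 2 * (k * c' - l * c) = 2 * A := by linarith
        linarith
      · show 0 < -(k * (2 * x) + c * n)
        have e : -(k * (2 * x) + c * n) = -(2 * k * x + c * n) := by ring
        rw [e]; exact pX
      · show 0 < l * (2 * x) + c' * n
        have e : l * (2 * x) + c' * n = 2 * l * x + c' * n := by ring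
        rw [e]; exact pY
  have k2 : GQ A A x (2 * n) = ∑ᶠ M ∈ FF (2 * A) x n, W2 M := by
    unfold GQ
    have h1 : ∑ᶠ t ∈ FF A x (2 * n), gnE A (fo t) = ∑ᶠ t ∈ FF A x (2 * n), W2 (f2 t) := by
      refine finsum_mem_congr rfl fun t _ => ?_
      have h2 : (2 : ℤ) ∣ (f2 t).2.2.1 ∧ (2 : ℤ) ∣ (f2 t).2.2.2 := ⟨⟨t.2.2.1, rfl⟩, ⟨t.2.2.2, rfl⟩⟩
      simp only [hW2]
      rw [if_pos h2]
      have e1 : (f2 t).2.2.1 / 2 = t.2.2.1 := by show 2 * t.2.2.1 / 2 = t.2.2.1; omega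
      have e2 : (f2 t).2.2.2 / 2 = t.2.2.2 := by show 2 * t.2.2.2 / 2 = t.2.2.2; omega
      rw [e1, e2]
      rfl
    rw [h1, ← finsum_mem_image f2_inj.injOn]
    apply finsum_mem_inter_support_eq
    ext M
    constructor
    · rintro ⟨h2, h3⟩
      refine ⟨?_, h3⟩
      obtain ⟨⟨a, a', c, c'⟩, ⟨pa, pa', h5, hdt, pX, pY⟩, rfl⟩ := h2
      simp only at pa pa' h5 hdt pX pY
      refine ⟨pa, pa', h5, ?_, ?_, ?_⟩
      · show a * (2 * c') - a' * (2 * c) = 2 * A
        linarith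
      · show 0 < -(a * x + 2 * c * n)
        have k : -(a * x + c * (2 * n)) = -(a * x + 2 * c * n) := by ring
        rw [← k]; exact pX
      · show 0 < a' * x + 2 * c' * n
        have k : a' * x + c' * (2 * n) = a' * x + 2 * c' * n := by ring
        rw [← k]; exact pY
    · rintro ⟨h2, h3⟩
      refine ⟨?_, h3⟩
      have h4 : (2 : ℤ) ∣ M.2.2.1 ∧ (2 : ℤ) ∣ M.2.2.2 := by
        by_contra h
        exact h3 (if_neg h)
      obtain ⟨a, a', c, c'⟩ := M
      obtain ⟨pa, pa', h5, hdt, pX, pY⟩ := h2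
      obtain ⟨⟨k, hk⟩, ⟨l, hl⟩⟩ := h4
      simp only at pa pa' h5 hdt pX pY hk hl
      subst hk hl
      refine ⟨(a, a', k, l), ⟨pa, pa', h5, ?_, ?_, ?_⟩, rfl⟩
      · show a * l - a' * k = A
        have : 2 * (a * l - a' * k) = 2 * A := by linarith
        linarith
      · show 0 < -(a * x + k * (2 * n))
        have e : -(a * x + k * (2 * n)) = -(a * x + 2 * k * n) := by ring
        rw [e]; exact pX
      · show 0 < a' * x + l * (2 * n)
        have e : a' * x + l * (2 * n) = a' * x + 2 * l * n := by ring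
        rw [e]; exact pY
  have k3 : GQ A A (x + n) (2 * n) = ∑ᶠ M ∈ FF (2 * A) x n, W3 M := by
    unfold GQ
    have h1 : ∑ᶠ t ∈ FF A (x + n) (2 * n), gnE A (fo t) =
        ∑ᶠ t ∈ FF A (x + n) (2 * n), W3 (f3 t) := by
      refine finsum_mem_congr rfl fun t _ => ?_
      have h2 : (2 : ℤ) ∣ (f3 t).2.2.1 - (f3 t).1 ∧ (2 : ℤ) ∣ (f3 t).2.2.2 - (f3 t).2.1 :=
        ⟨⟨t.2.2.1, by show t.1 + 2 * t.2.2.1 - t.1 = _; ring⟩,
          ⟨t.2.2.2, by show t.2.1 + 2 * t.2.2.2 - t.2.1 = _; ring⟩⟩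
      simp only [hW3]
      rw [if_pos h2]
      have e1 : ((f3 t).2.2.1 - (f3 t).1) / 2 = t.2.2.1 := by
        show (t.1 + 2 * t.2.2.1 - t.1) / 2 = t.2.2.1
        omega
      have e2 : ((f3 t).2.2.2 - (f3 t).2.1) / 2 = t.2.2.2 := by
        show (t.2.1 + 2 * t.2.2.2 - t.2.1) / 2 = t.2.2.2
        omega
      rw [e1, e2]
      rfl
    rw [h1, ← finsum_mem_image f3_inj.injOn]
    apply finsum_mem_inter_support_eq
    ext M
    constructor
    · rintro ⟨h2, h3⟩
      refine ⟨?_, h3⟩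
      obtain ⟨⟨a, a', c, c'⟩, ⟨pa, pa', h5, hdt, pX, pY⟩, rfl⟩ := h2
      simp only at pa pa' h5 hdt pX pY
      refine ⟨pa, pa', h5, ?_, ?_, ?_⟩
      · show a * (a' + 2 * c') - a' * (a + 2 * c) = 2 * A
        linarith
      · show 0 < -(a * x + (a + 2 * c) * n)
        have k : -(a * (x + n) + c * (2 * n)) = -(a * x + (a + 2 * c) * n) := by ring
        rw [← k]; exact pX
      · show 0 < a' * x + (a' + 2 * c') * n
        have k : a' * (x + n) + c' * (2 * n) = a' * x + (a' + 2 * c') * n := by ring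
        rw [← k]; exact pY
    · rintro ⟨h2, h3⟩
      refine ⟨?_, h3⟩
      have h4 : (2 : ℤ) ∣ M.2.2.1 - M.1 ∧ (2 : ℤ) ∣ M.2.2.2 - M.2.1 := by
        by_contra h
        exact h3 (if_neg h)
      obtain ⟨a, a', c, c'⟩ := M
      obtain ⟨pa, pa', h5, hdt, pX, pY⟩ := h2
      obtain ⟨⟨k, hk⟩, ⟨l, hl⟩⟩ := h4
      simp only at pa pa' h5 hdt pX pY hk hl
      have ec : c = a + 2 * k := by linarith
      have ec' : c' = a' + 2 * l := by linarith
      subst ec ec'
      refine ⟨(a, a', k, l), ⟨pa, pa', h5, ?_, ?_, ?_⟩, rfl⟩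
      · show a * l - a' * k = A
        have : 2 * (a * l - a' * k) = 2 * A := by linarith
        linarith
      · show 0 < -(a * (x + n) + k * (2 * n))
        have e : -(a * (x + n) + k * (2 * n)) = -(a * x + (a + 2 * k) * n) := by ring
        rw [e]; exact pX
      · show 0 < a' * (x + n) + l * (2 * n)
        have e : a' * (x + n) + l * (2 * n) = a' * x + (a' + 2 * l) * n := by ring
        rw [e]; exact pY
  rw [k1, k2, k3, ← finsum_mem_add_distrib Fi, ← finsum_mem_add_distrib Fi]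
  unfold GQ
  refine finsum_mem_congr rfl fun M hM => ?_
  exact two_pt hA hM.2.2.2.1

/-! ### the data for even `A` -/

/-- the weight of the data -/
def PLE (A m N : ℕ) (w : Σ _ : ℕ, ℕ × ℕ) : ℤ :=
  ∏ p ∈ A.primeFactors, if p = 2 then
    psl2 (A * m) w.2.1 w.2.2 ((N - w.1) / w.2.1) (w.1 / w.2.2)
    else psl p w.2.1 w.2.2 ((N - w.1) / w.2.1) (w.1 / w.2.2)

theorem gen_psl {n N : ℕ} {x : ℤ} {T a a' X Y : ℕ} {c c' : ℤ} (f : Fc n N x T a a' X Y c c')
    {p : ℕ} (hpp : p.Prime) {d : ℤ} (hdet : (a : ℤ) * c' - a' * c = d) (hpd : (p : ℤ) ∣ d)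
    (hpn : IsCoprime (n : ℤ) (p : ℤ)) : gen p (fo ((a : ℤ), (a' : ℤ), c, c')) = psl p a a' Y X := by
  have hpP : Prime (p : ℤ) := Nat.prime_iff_prime_int.1 hpp
  unfold gen psl fo
  simp only
  by_cases h1 : p ∣ a ∧ p ∣ a'
  · have h2 : (p : ℤ) ∣ (a : ℤ) * a' := Dvd.dvd.mul_right (by exact_mod_cast h1.1) _
    rw [if_pos h2, if_pos h1, ← jac_sq_mul (y := c * c') hpn]
    refine jac_congr ?_
    have ha : (p : ℤ) ∣ (a : ℤ) := by exact_mod_cast h1.1
    have ha' : (p : ℤ) ∣ (a' : ℤ) := by exact_mod_cast h1.2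
    have e : (n : ℤ) ^ 2 * (c * c') - (-((X * Y : ℕ) : ℤ)) = a' * (x * X + a * x ^ 2) - a * (x * Y) := by
      push_cast
      have e1 := f.hc
      have e2 := f.hc'
      linear_combination (-(n : ℤ) * c') * e1 + ((X : ℤ) + a * x) * e2
    rw [e]
    exact dvd_sub (ha'.mul_right _) (ha.mul_right _)
  · rw [if_neg h1]
    by_cases h2 : (p : ℤ) ∣ (a : ℤ) * a'
    · rw [if_pos h2]
      have h3 : jacobiSym ((a * a' : ℕ) : ℤ) p = 0 := by
        refine jac_zero_of_dvd hpp ?_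
        push_cast
        exact h2
      rw [h3]
      refine jac_zero_of_dvd hpp ?_
      obtain ⟨q1, q2⟩ := pdvd hpp hdet hpd h2
      rcases hpP.dvd_or_dvd h2 with h4 | h4
      · rcases hpP.dvd_or_dvd q2 with h6 | h6
        · exact absurd ⟨by exact_mod_cast h4, by exact_mod_cast h6⟩ h1
        · exact h6.mul_right _
      · rcases hpP.dvd_or_dvd q1 with h6 | h6
        · exact absurd ⟨by exact_mod_cast h6, by exact_mod_cast h4⟩ h1
        · exact h6.mul_left _
    · rw [if_neg h2]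
      push_cast
      rfl

theorem c2_An {A n : ℕ} (hA : Ae A) (hn : n % 4 = 3) (u : ℤ) : c2 (A * n) u = c2 (3 * A) u := by
  obtain ⟨t, rfl⟩ : ∃ t, n = 4 * t + 3 := ⟨n / 4, by omega⟩
  unfold Ae at hA
  unfold c2
  rcases hA with h | h
  · obtain ⟨l, rfl⟩ : ∃ l, A = 4 * l := ⟨A / 4, by omega⟩
    have e : 4 * l * (4 * t + 3) = 16 * (l * t) + 12 * l := by ring
    rw [e]
    generalize l * t = z
    have h1 : (16 * z + 12 * l) % 16 = 4 := by omega
    have h2 : 3 * (4 * l) % 16 = 4 := by omega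
    rw [if_pos h1, if_pos h2]
  · obtain ⟨l, rfl⟩ : ∃ l, A = 8 * l := ⟨A / 8, by omega⟩
    have e : 8 * l * (4 * t + 3) = 32 * (l * t) + 24 * l := by ring
    rw [e]
    generalize l * t = z
    have h1' : (32 * z + 24 * l) % 16 = 3 * (8 * l) % 16 := by omega
    have h2 : (32 * z + 24 * l) % 32 = 3 * (8 * l) % 32 := by omega
    rw [h1', h2]

theorem k2_psl {n N : ℕ} {x : ℤ} {T a a' X Y : ℕ} {c c' : ℤ} (f : Fc n N x T a a' X Y c c')
    {A : ℕ} (hA : Ae A) (hn : n % 4 = 3) {e : ℤ} (hdet : (a : ℤ) * c' - a' * c = A * e) :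
    k2 A ((a : ℤ), (a' : ℤ), c, c') = psl2 (A * n) a a' Y X := by
  unfold k2 psl2
  simp only
  rw [c2_An hA hn, c2_An hA hn]
  have hA2 : (A : ℤ) % 2 = 0 := by unfold Ae at hA; omega
  have hdet2 : ((a : ℤ) * c' - a' * c) % 2 = 0 := by
    rw [hdet, Int.mul_emod, hA2]; norm_num
  have p1 := pe a a'
  have p2 := pe a c'
  have p3 := pe a' c
  have p4 := pe c c'
  by_cases h1 : a % 2 = 1 ∧ a' % 2 = 1
  · have h2 : ¬ (2 : ℤ) ∣ (a : ℤ) * a' := by omega
    rw [if_neg h2, if_pos h1]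
    push_cast
    rfl
  · have h2 : (2 : ℤ) ∣ (a : ℤ) * a' := by omega
    rw [if_pos h2, if_neg h1]
    by_cases h3 : a % 2 = 0 ∧ a' % 2 = 0
    · rw [if_pos h3]
      have eX : -(X : ℤ) = a * x + n * c := by linear_combination f.hc
      have eY : (Y : ℤ) = a' * x + n * c' := by linear_combination f.hc'
      have eXY : -((X * Y : ℕ) : ℤ) = (a * x + n * c) * (a' * x + n * c') := by
        push_cast
        rw [← eX, ← eY]
        ring
      have q1 := pe a x
      have q2 := pe a' x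
      have q3 := pe n c
      have q4 := pe n c'
      rw [eXY]
      by_cases hcc : (c * c') % 2 = 1
      · obtain ⟨hc, hc'⟩ := par_mul.1 hcc
        refine (c2_eq_of hA (s := a' * c * x + n * (c * c')) (k := e * x) ?_ ?_ hcc ?_).symm
        · have q5 := pe a' (c * x)
          have q6 := pe n (c * c')
          have e5 : (a' : ℤ) * c * x = a' * (c * x) := by ring
          rw [e5]
          omega
        · rw [par_mul]
          omega
        · linear_combination ((a' * c * x + n * (c * c')) * x) * hdet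
      · have hcc0 : (c * c') % 2 = 0 := by omega
        rw [c2_even _ hcc0]
        symm
        apply c2_even
        by_contra h5
        have h6 : (((a : ℤ) * x + n * c) * (a' * x + n * c')) % 2 = 1 := by omega
        obtain ⟨h7, h8⟩ := par_mul.1 h6
        omega
    · rw [if_neg h3]
      apply c2_even
      omega

theorem gn_dataE {A n d : ℕ} (hA : Ae A) (hAd : A ∣ d) (hn4 : n % 4 = 3) (hcop : Nat.Coprime A n)
    (x : ℤ) {w : Σ _ : ℕ, ℕ × ℕ} (hw : w ∈ (Om (d * n)).filter (Cd n (d * n) x)) :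
    gnE A (fo (fw n (d * n) x w)) = PLE A n (d * n) w := by
  obtain ⟨T, a, a'⟩ := w
  have hn : 0 < n := by omega
  have hA2 : 2 ∣ A := by unfold Ae at hA; omega
  have hA0 : A ≠ 0 := by unfold Ae at hA; omega
  rw [Finset.mem_filter] at hw
  obtain ⟨X, Y, c, c', f, hf⟩ := facts n (d * n) hn x T a a' hw.1 hw.2
  rw [hf]
  have hm' : (n : ℤ) ≠ 0 := by exact_mod_cast hn.ne'
  have hdet : (a : ℤ) * c' - a' * c = d := by
    have e1 : (n : ℤ) * (a * c' - a' * c) = n * d := by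
      have := f.h3
      push_cast at this
      linear_combination this - a * f.hc' + a' * f.hc
    exact mul_left_cancel₀ hm' e1
  obtain ⟨e, he⟩ := hAd
  have hdet' : (a : ℤ) * c' - a' * c = A * e := by rw [hdet, he]; push_cast; ring
  have h2mem : 2 ∈ A.primeFactors := Nat.mem_primeFactors.2 ⟨Nat.prime_two, hA2, hA0⟩
  rw [gnE_fo hA2, k2_psl f hA hn4 hdet']
  unfold PLE go
  simp only [f.hX, f.hY]
  rw [← Finset.mul_prod_erase _ _ h2mem, if_pos rfl]
  congr 1
  refine Finset.prod_congr rfl fun p hp => ?_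
  rw [Finset.mem_erase] at hp
  have hpp := Nat.prime_of_mem_primeFactors hp.2
  have hpA := Nat.dvd_of_mem_primeFactors hp.2
  rw [if_neg hp.1]
  refine gen_psl f hpp hdet' (Dvd.dvd.mul_right (by exact_mod_cast hpA) _) ?_
  refine Nat.isCoprime_iff_coprime.2 ?_
  exact (Nat.Coprime.coprime_dvd_left hpA hcop).symm

theorem GQ_data {A n d : ℕ} (hA : Ae A) (hAd : A ∣ d) (hd : 0 < d) (hn4 : n % 4 = 3)
    (hcop : Nat.Coprime A n) (x : ℤ) :
    GQ d A x n = ∑ w ∈ (Om (d * n)).filter (Cd n (d * n) x), PLE A n (d * n) w := by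
  unfold GQ
  rw [← finsum_mem_eq_of_bijOn (fw n (d * n) x) (bijOn n d (by omega) hd x)
    (f := fun w => PLE A n (d * n) w)
    (fun w hw => (gn_dataE hA hAd hn4 hcop x (by exact_mod_cast hw)).symm)]
  rw [finsum_mem_coe_finset]

theorem chM_odd {m : ℕ} (hm : Squarefree m) (h4 : m % 4 = 3) (u : ℤ) : chM m u = jacobiSym u m := by
  have h2 : ¬ 2 ∣ m := by omega
  unfold chM
  rw [if_neg h2, one_mul, Finset.erase_eq_of_notMem (fun h => h2 (Nat.dvd_of_mem_primeFactors h))]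
  conv_rhs => rw [← Nat.prod_primeFactors_of_squarefree hm]
  rw [Pool.Agent.N402.P15.jac_pr fun p hp => Nat.prime_of_mem_primeFactors hp]

/-- the sum over the data, even `A` -/
theorem sum_dataE {A m d : ℕ} (hA : Ae A) (hAd : A ∣ d) (hd : 0 < d) (hm : Squarefree m)
    (hm4 : m % 4 = 3) (hcop : Nat.Coprime A m) (hdm : Nat.Coprime d m) :
    ∑ u ∈ un m, chM m u * GQ d A u m = WTgE A m (d * m) := by
  have hm0 : 0 < m := Nat.pos_of_ne_zero hm.ne_zero
  have h1 : ∀ u ∈ un m, chM m u * GQ d A u m =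
      ∑ w ∈ Om (d * m), (if Cd m (d * m) u w then PLE A m (d * m) w * jacobiSym u m else 0) := by
    intro u _
    rw [GQ_data hA hAd hd hm4 hcop, Finset.mul_sum, Finset.sum_filter, chM_odd hm hm4]
    refine Finset.sum_congr rfl fun w _ => ?_
    split_ifs <;> ring
  rw [Finset.sum_congr rfl h1, Finset.sum_comm]
  have hP : ∀ p ∈ m.primeFactors, p.Prime := fun p hp => Nat.prime_of_mem_primeFactors hp
  have hprod : ∏ p ∈ m.primeFactors, p = m := Nat.prod_primeFactors_of_squarefree hm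
  have h2 : ∀ w ∈ Om (d * m), ∑ u ∈ un m,
      (if Cd m (d * m) u w then PLE A m (d * m) w * jacobiSym u m else 0) =
      PLE A m (d * m) w * ∏ p ∈ m.primeFactors, (if p = 2 then
        psp2 (A * m) w.2.1 w.2.2 ((d * m - w.1) / w.2.1) (w.1 / w.2.2)
        else psp p w.2.1 w.2.2 ((d * m - w.1) / w.2.1) (w.1 / w.2.2)) := by
    rintro ⟨T, a, a'⟩ hw
    have hw' := hw
    unfold Om at hw'
    simp only [Finset.mem_sigma, Finset.mem_filter, Finset.mem_range, Finset.mem_product,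
      Nat.mem_divisors] at hw'
    obtain ⟨⟨hT, hT5⟩, ⟨h3, h4⟩, ⟨h5, h6⟩, h7⟩ := hw'
    have hdet : a * ((d * m - T) / a) + a' * (T / a') = d * m := by
      rw [Nat.mul_div_cancel' h3, Nat.mul_div_cancel' h5]
      omega
    have key := gen_C1B m.primeFactors hP a a' (T / a') ((d * m - T) / a) (d * m) hdet (by
      intro p hp
      have hpp := hP p hp
      have hpm : p ∣ m := Nat.dvd_of_mem_primeFactors hp
      refine ⟨hpm.mul_left d, fun h => ?_⟩
      have hc : Nat.Coprime (p ^ 2) d :=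
        Nat.Coprime.pow_left 2 (Nat.Coprime.coprime_dvd_left hpm hdm.symm)
      have h8 := hc.dvd_of_dvd_mul_left h
      rw [pow_two] at h8
      exact hpp.one_lt.ne' (Nat.isUnit_iff.1 (hm p h8)))
    rw [hprod] at key
    simp only
    have e9 : ∏ p ∈ m.primeFactors, (if p = 2 then
        psp2 (A * m) a a' ((d * m - T) / a) (T / a')
        else psp p a a' ((d * m - T) / a) (T / a')) =
        ∏ p ∈ m.primeFactors, psp p a a' ((d * m - T) / a) (T / a') := by
      refine Finset.prod_congr rfl fun p hp => ?_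
      have hp2 : p ≠ 2 := by
        rintro rfl
        have := Nat.dvd_of_mem_primeFactors hp
        omega
      rw [if_neg hp2]
    rw [e9, ← key, Finset.sum_filter, Finset.mul_sum]
    refine Finset.sum_congr rfl fun u _ => ?_
    by_cases hC : Cd m (d * m) u ⟨T, (a, a')⟩
    · rw [if_pos hC]
      congr 1
      exact (if_pos hC).symm
    · rw [if_neg hC]
      have h0 : (if (m : ℤ) ∣ (a : ℤ) * (u : ℤ) + ((T / a' : ℕ) : ℤ) ∧
          (m : ℤ) ∣ (a' : ℤ) * (u : ℤ) - (((d * m - T) / a : ℕ) : ℤ) then jacobiSym u m else 0) = 0 :=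
        if_neg hC
      rw [h0, mul_zero]
  rw [Finset.sum_congr rfl h2]
  unfold WTgE WgE Om
  rw [Finset.sum_sigma]
  refine Finset.sum_congr rfl fun T _ => ?_
  rw [Finset.sum_product]
  rfl

/-- the odd character and the reflection, even `A` -/
theorem odd_sumE {A m : ℕ} (hA : Ae A) {d e : ℤ} (hd : d = A * e) (hm : 1 < m) {χ : ℤ → ℤ}
    (hχ : ∀ u : ℤ, χ ((m : ℤ) - u) = -χ u) :
    ∑ u ∈ un m, χ u * GQ d A (-(u : ℤ)) m = -∑ u ∈ un m, χ u * GQ d A u m := by
  have h1 := un_refl hm (fun u => χ u * GQ d A (-u) m)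
  rw [← h1, ← Finset.sum_neg_distrib]
  refine Finset.sum_congr rfl fun u _ => ?_
  rw [hχ]
  have e1 : -((m : ℤ) - u) = (u : ℤ) + m * (-1) := by ring
  rw [e1, GQ_shift hA hd]
  ring

end

end Pool.Agent.N971.PG
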